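import Mathlib

/-!
The partite step (Hales-Jewett) and its iteration for systems over a finite linear order `I`.
-/

namespace Pool.Agent.Lib_helper38.HT

/-- `I`-partite systems: a graph `E` going upwards in `I` and a ternary relation `s`. -/
structure Sys (I : Type) [LinearOrder I] where
  V : Type
  fin : Finite V
  pr : V → I
  E : V → V → Prop
  hE : ∀ {u v}, E u v → pr u < pr v
  s : V → V → V → Prop

variable {I : Type} [LinearOrder I]

/-- Homomorphisms of systems. -/
structure IsHom (P Q : Sys I) (f : P.V → Q.V) : Prop where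
  pr : ∀ u, Q.pr (f u) = P.pr u
  E : ∀ u v, P.E u v → Q.E (f u) (f v)
  s : ∀ u v w, P.E u v → P.E v w → P.E u w → (Q.s (f u) (f v) (f w) ↔ P.s u v w)

theorem IsHom.id (P : Sys I) : IsHom P P (fun u => u) :=
  ⟨fun _ => rfl, fun _ _ h => h, fun _ _ _ _ _ _ => Iff.rfl⟩

theorem IsHom.comp {P Q R : Sys I} {f : P.V → Q.V} {g : Q.V → R.V} (hg : IsHom Q R g)
    (hf : IsHom P Q f) : IsHom P R (g ∘ f) :=
  ⟨fun u => (hg.pr _).trans (hf.pr u), fun _ _ h => hg.E _ _ (hf.E _ _ h),
    fun _ _ _ h1 h2 h3 => (hg.s _ _ _ (hf.E _ _ h1) (hf.E _ _ h2) (hf.E _ _ h3)).trans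
      (hf.s _ _ _ h1 h2 h3)⟩

variable {A : Type} [LinearOrder A]

/-- Complete transversal copies of `(A, sA)` in `P` over `α`. -/
structure IsCop (sA : A → A → A → Prop) (P : Sys I) (α : A → I) (a : A → P.V) : Prop where
  pr : ∀ x, P.pr (a x) = α x
  E : ∀ x y, x < y → P.E (a x) (a y)
  s : ∀ x y z, x < y → y < z → (P.s (a x) (a y) (a z) ↔ sA x y z)

theorem IsCop.map {sA : A → A → A → Prop} {P Q : Sys I} {α : A → I} {a : A → P.V}
    {f : P.V → Q.V} (hf : IsHom P Q f) (ha : IsCop sA P α a) : IsCop sA Q α (f ∘ a) :=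
  ⟨fun x => (hf.pr _).trans (ha.pr x), fun x y h => hf.E _ _ (ha.E x y h),
    fun x y z h1 h2 => (hf.s _ _ _ (ha.E _ _ h1) (ha.E _ _ h2) (ha.E _ _ (h1.trans h2))).trans
      (ha.s x y z h1 h2)⟩

/-- The alternating pattern on `w < x < y < z`: these are the two ordered copies of `H_4`. -/
def Alt {V : Type} (s : V → V → V → Prop) (w x y z : V) : Prop :=
  (s w x y ↔ s w y z) ∧ (s w x z ↔ s x y z) ∧ (s w x y ↔ ¬ s w x z)

/-- No alternating pattern. -/
def NonAlt {V : Type} [LT V] (s : V → V → V → Prop) : Prop :=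
  ∀ w x y z, w < x → x < y → y < z → ¬ Alt s w x y z

/-- The system `P` carries on its triangles the pattern `s0` of its projection, and its
4-cliques project to non-alternating quadruples. -/
structure Good (s0 : I → I → I → Prop) (P : Sys I) : Prop where
  tri : ∀ u v w, P.E u v → P.E v w → P.E u w → (P.s u v w ↔ s0 (P.pr u) (P.pr v) (P.pr w))
  quad : ∀ w x y z, P.E w x → P.E w y → P.E w z → P.E x y → P.E x z → P.E y z →
    ¬ Alt s0 (P.pr w) (P.pr x) (P.pr y) (P.pr z)

section step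

variable {sA : A → A → A → Prop} {P : Sys I} {α : A → I} {ι : Type}

/-- The alphabet: all copies over `α`. -/
def Al (sA : A → A → A → Prop) (P : Sys I) (α : A → I) : Type :=
  {a : A → P.V // IsCop sA P α a}

/-- The embedding of `P` in the big system given by a line. -/
noncomputable def psi (l : ι → Option (Al sA P α)) (u : P.V) :
    (ι → P.V) ⊕ ((ι → Option (Al sA P α)) × P.V) :=
  open Classical in
  if h : ∃ x, α x = P.pr u then
    Sum.inl (fun c => match l c with
      | none => u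
      | some a => a.1 h.choose)
  else Sum.inr (l, u)

theorem psi_inl (hα : StrictMono α) (l : ι → Option (Al sA P α)) {u : P.V} {x : A}
    (h : α x = P.pr u) : psi l u = Sum.inl (fun c => match l c with
      | none => u
      | some a => a.1 x) := by
  classical
  have hex : ∃ x, α x = P.pr u := ⟨x, h⟩
  have hc : hex.choose = x := hα.injective (hex.choose_spec.trans h.symm)
  unfold psi
  rw [dif_pos hex, hc]

theorem psi_inr (l : ι → Option (Al sA P α)) {u : P.V} (h : ¬ ∃ x, α x = P.pr u) :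
    psi l u = Sum.inr (l, u) := by
  classical
  unfold psi
  rw [dif_neg h]

theorem psi_eq_inl (hα : StrictMono α) {l : ι → Option (Al sA P α)} {u : P.V} {f : ι → P.V}
    (h : psi l u = Sum.inl f) : ∃ x, α x = P.pr u ∧ f = (fun c => match l c with
      | none => u
      | some a => a.1 x) := by
  by_cases hx : ∃ x, α x = P.pr u
  · obtain ⟨x, hx⟩ := hx
    refine ⟨x, hx, ?_⟩
    rw [psi_inl hα l hx] at h
    exact (Sum.inl.inj h).symm
  · rw [psi_inr l hx] at h
    exact absurd h (by simp)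

theorem psi_eq_inr (hα : StrictMono α) {l l' : ι → Option (Al sA P α)} {u u' : P.V}
    (h : psi l u = Sum.inr (l', u')) : l = l' ∧ u = u' := by
  by_cases hx : ∃ x, α x = P.pr u
  · obtain ⟨x, hx⟩ := hx
    rw [psi_inl hα l hx] at h
    exact absurd h (by simp)
  · rw [psi_inr l hx] at h
    exact ⟨congrArg Prod.fst (Sum.inr.inj h), congrArg Prod.snd (Sum.inr.inj h)⟩

/-- coordinate of a line point in an active direction -/
theorem psi_active (hα : StrictMono α) {l : ι → Option (Al sA P α)} {c : ι} (hc : l c = none)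
    {u : P.V} {f : ι → P.V} (h : psi l u = Sum.inl f) : f c = u := by
  obtain ⟨x, -, rfl⟩ := psi_eq_inl hα h
  simp only [hc]

theorem psi_injective (hα : StrictMono α) {l : ι → Option (Al sA P α)} {c : ι}
    (hc : l c = none) {u v : P.V} (h : psi l u = psi l v) : u = v := by
  rcases hv : psi l v with f | ⟨l', v'⟩
  · rw [← psi_active hα hc hv, ← psi_active hα hc (h.trans hv)]
  · rw [(psi_eq_inr hα hv).2, (psi_eq_inr hα (h.trans hv)).2]

/-- The graph of the big system. -/
def bigE (P : Sys I) (sA : A → A → A → Prop) (α : A → I) (ι : Type)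
    (p q : (ι → P.V) ⊕ ((ι → Option (Al sA P α)) × P.V)) : Prop :=
  (∃ f g, p = Sum.inl f ∧ q = Sum.inl g ∧ (∀ c c', P.pr (f c) = P.pr (f c')) ∧
    (∀ c c', P.pr (g c) = P.pr (g c')) ∧ ∀ c, P.E (f c) (g c)) ∨
  (∃ l u v, (∃ c, l c = none) ∧ p = psi l u ∧ q = psi l v ∧ P.E u v)

/-- Push-forward of the pattern of `A`. -/
def pushS (sA : A → A → A → Prop) (α : A → I) (i j k : I) : Prop :=
  ∃ x y z, α x = i ∧ α y = j ∧ α z = k ∧ sA x y z

theorem pushS_iff (hα : StrictMono α) (x y z : A) :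
    pushS sA α (α x) (α y) (α z) ↔ sA x y z := by
  constructor
  · rintro ⟨x', y', z', hx, hy, hz, h⟩
    rw [← hα.injective hx, ← hα.injective hy, ← hα.injective hz]
    exact h
  · intro h
    exact ⟨x, y, z, rfl, rfl, rfl, h⟩

/-- The ternary relation of the big system. -/
def bigS (P : Sys I) (sA : A → A → A → Prop) (α : A → I) (ι : Type)
    (p q r : (ι → P.V) ⊕ ((ι → Option (Al sA P α)) × P.V)) : Prop :=
  (∃ f g h, p = Sum.inl f ∧ q = Sum.inl g ∧ r = Sum.inl h ∧
    (((∀ c, pushS sA α (P.pr (f c)) (P.pr (g c)) (P.pr (h c))) ∧ ∀ c, P.s (f c) (g c) (h c)) ∨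
     ((∀ c, ¬ pushS sA α (P.pr (f c)) (P.pr (g c)) (P.pr (h c))) ∧
       ∃ c, P.s (f c) (g c) (h c)))) ∨
  ((¬ ∃ f g h, p = Sum.inl f ∧ q = Sum.inl g ∧ r = Sum.inl h) ∧
   ∃ l u v w, (∃ c, l c = none) ∧ p = psi l u ∧ q = psi l v ∧ r = psi l w ∧ P.s u v w)

theorem pr_psi (hα : StrictMono α) (l : ι → Option (Al sA P α)) (u : P.V) (c0 : ι) :
    Sum.elim (fun f : ι → P.V => P.pr (f c0))
      (fun p : (ι → Option (Al sA P α)) × P.V => P.pr p.2) (psi l u) = P.pr u := by
  rcases h : psi l u with f | ⟨l', u'⟩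
  · obtain ⟨x, hx, rfl⟩ := psi_eq_inl hα h
    simp only [Sum.elim_inl]
    rcases hc : l c0 with _ | a
    · rfl
    · exact (a.2.pr x).trans hx
  · simp only [Sum.elim_inr]
    rw [(psi_eq_inr hα h).2]

/-- coordinates of a line point -/
theorem psi_pr (hα : StrictMono α) {l : ι → Option (Al sA P α)} {u : P.V} {f : ι → P.V}
    (h : psi l u = Sum.inl f) (c : ι) : P.pr (f c) = P.pr u := by
  have := pr_psi hα l u c
  rw [h] at this
  exact this

/-- The big system. -/
noncomputable def bigSys (P : Sys I) (sA : A → A → A → Prop) (α : A → I) (hα : StrictMono α)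
    [Finite A] (ι : Type) [Finite ι] (c0 : ι) : Sys I where
  V := (ι → P.V) ⊕ ((ι → Option (Al sA P α)) × P.V)
  fin := by
    have := P.fin
    have : Finite (Al sA P α) := by unfold Al; infer_instance
    infer_instance
  pr := Sum.elim (fun f => P.pr (f c0)) (fun p => P.pr p.2)
  E := bigE P sA α ι
  hE := by
    rintro p q (⟨f, g, rfl, rfl, -, -, h⟩ | ⟨l, u, v, -, rfl, rfl, h⟩)
    · exact P.hE (h c0)
    · rw [pr_psi hα, pr_psi hα]
      exact P.hE h
  s := bigS P sA α ι

theorem bigE_inl (hα : StrictMono α) {f g : ι → P.V}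
    (h : bigE P sA α ι (Sum.inl f) (Sum.inl g)) :
    (∀ c c', P.pr (f c) = P.pr (f c')) ∧ (∀ c c', P.pr (g c) = P.pr (g c')) ∧
      ∀ c, P.E (f c) (g c) := by
  rcases h with ⟨f', g', hf, hg, h⟩ | ⟨l, u, v, -, hu, hv, h⟩
  · cases Sum.inl.inj hf
    cases Sum.inl.inj hg
    exact h
  · have h1 := psi_pr hα hu.symm
    have h2 := psi_pr hα hv.symm
    refine ⟨fun c c' => (h1 c).trans (h1 c').symm, fun c c' => (h2 c).trans (h2 c').symm, ?_⟩
    intro c
    obtain ⟨x, hx, rfl⟩ := psi_eq_inl hα hu.symm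
    obtain ⟨y, hy, rfl⟩ := psi_eq_inl hα hv.symm
    rcases hc : l c with _ | a
    · simpa only [hc] using h
    · simp only [hc]
      apply a.2.E
      have := P.hE h
      rw [← hx, ← hy] at this
      exact hα.lt_iff_lt.1 this

/-- edges at a point outside the `α`-part -/
theorem bigE_inr_left (hα : StrictMono α) {l : ι → Option (Al sA P α)} {u : P.V}
    {q : (ι → P.V) ⊕ ((ι → Option (Al sA P α)) × P.V)}
    (h : bigE P sA α ι (Sum.inr (l, u)) q) :
    (∃ c, l c = none) ∧ psi l u = Sum.inr (l, u) ∧ ∃ v, q = psi l v ∧ P.E u v := by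
  rcases h with ⟨f', g', hf, -⟩ | ⟨l', u', v, hc, hu, hv, h⟩
  · exact absurd hf (by simp)
  · obtain ⟨rfl, rfl⟩ := psi_eq_inr hα hu.symm
    exact ⟨hc, hu.symm, v, hv, h⟩

theorem bigE_inr_right (hα : StrictMono α) {l : ι → Option (Al sA P α)} {u : P.V}
    {q : (ι → P.V) ⊕ ((ι → Option (Al sA P α)) × P.V)}
    (h : bigE P sA α ι q (Sum.inr (l, u))) :
    (∃ c, l c = none) ∧ psi l u = Sum.inr (l, u) ∧ ∃ v, q = psi l v ∧ P.E v u := by
  rcases h with ⟨f', g', -, hf, -⟩ | ⟨l', v, u', hc, hu, hv, h⟩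
  · exact absurd hf (by simp)
  · obtain ⟨rfl, rfl⟩ := psi_eq_inr hα hv.symm
    exact ⟨hc, hv.symm, v, hu, h⟩

/-- pulling back edges along a line -/
theorem bigE_psi (hα : StrictMono α) {l : ι → Option (Al sA P α)} (hl : ∃ c, l c = none)
    {u v : P.V} (h : bigE P sA α ι (psi l u) (psi l v)) : P.E u v := by
  obtain ⟨c, hc⟩ := hl
  rcases hu : psi l u with f | ⟨l', u'⟩
  · rcases hv : psi l v with g | ⟨l', v'⟩
    · rw [hu, hv] at h
      have := (bigE_inl hα h).2.2 c
      rwa [psi_active hα hc hu, psi_active hα hc hv] at this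
    · obtain ⟨rfl, rfl⟩ := psi_eq_inr hα hv
      rw [hv] at h
      obtain ⟨-, -, w, hw, h⟩ := bigE_inr_right hα h
      rwa [psi_injective hα hc hw]
  · obtain ⟨rfl, rfl⟩ := psi_eq_inr hα hu
    rw [hu] at h
    obtain ⟨-, -, w, hw, h⟩ := bigE_inr_left hα h
    rwa [psi_injective hα hc hw]

theorem isHom_psi (hα : StrictMono α) [Finite A] [Finite ι] (c0 : ι)
    {l : ι → Option (Al sA P α)} (hl : ∃ c, l c = none) :
    IsHom P (bigSys P sA α hα ι c0) (psi l) where
  pr u := pr_psi hα l u c0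
  E u v h := Or.inr ⟨l, u, v, hl, rfl, rfl, h⟩
  s u v w huv hvw huw := by
    change bigS P sA α ι (psi l u) (psi l v) (psi l w) ↔ P.s u v w
    obtain ⟨c1, hc1⟩ := hl
    by_cases hall : ∃ f g h, psi l u = Sum.inl f ∧ psi l v = Sum.inl g ∧ psi l w = Sum.inl h
    · obtain ⟨f, g, h, hf, hg, hh⟩ := hall
      obtain ⟨x, hx, hfx⟩ := psi_eq_inl hα hf
      obtain ⟨y, hy, hgy⟩ := psi_eq_inl hα hg
      obtain ⟨z, hz, hhz⟩ := psi_eq_inl hα hh
      have hxy : x < y := by
        have := P.hE huv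
        rw [← hx, ← hy] at this
        exact hα.lt_iff_lt.1 this
      have hyz : y < z := by
        have := P.hE hvw
        rw [← hy, ← hz] at this
        exact hα.lt_iff_lt.1 this
      have hpush : ∀ c, pushS sA α (P.pr (f c)) (P.pr (g c)) (P.pr (h c)) ↔ sA x y z := by
        intro c
        rw [psi_pr hα hf, psi_pr hα hg, psi_pr hα hh, ← hx, ← hy, ← hz, pushS_iff hα]
      have hact : ∀ c, l c = none → (P.s (f c) (g c) (h c) ↔ P.s u v w) := by
        intro c hc
        rw [psi_active hα hc hf, psi_active hα hc hg, psi_active hα hc hh]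
      have hfix : ∀ c a, l c = some a → (P.s (f c) (g c) (h c) ↔ sA x y z) := by
        intro c a hc
        subst hfx hgy hhz
        simp only [hc]
        exact a.2.s x y z hxy hyz
      unfold bigS
      constructor
      · rintro (⟨f', g', h', hf', hg', hh', hor⟩ | ⟨hno, -⟩)
        · rw [hf] at hf'; rw [hg] at hg'; rw [hh] at hh'
          cases Sum.inl.inj hf'; cases Sum.inl.inj hg'; cases Sum.inl.inj hh'
          rcases hor with ⟨-, h2⟩ | ⟨h1, c, h2⟩
          · exact (hact c1 hc1).1 (h2 c1)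
          · rcases hc : l c with _ | a
            · exact (hact c hc).1 h2
            · exact absurd ((hpush c).2 ((hfix c a hc).1 h2)) (h1 c)
        · exact absurd ⟨f, g, h, hf, hg, hh⟩ hno
      · intro hs
        left
        refine ⟨f, g, h, hf, hg, hh, ?_⟩
        by_cases hsA : sA x y z
        · left
          refine ⟨fun c => (hpush c).2 hsA, fun c => ?_⟩
          rcases hc : l c with _ | a
          · exact (hact c hc).2 hs
          · exact (hfix c a hc).2 hsA
        · right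
          exact ⟨fun c hc => hsA ((hpush c).1 hc), c1, (hact c1 hc1).2 hs⟩
    · unfold bigS
      constructor
      · rintro (⟨f', g', h', hf', hg', hh', -⟩ | ⟨-, l', u', v', w', ⟨c2, hc2⟩, hu, hv, hw, hs⟩)
        · exact absurd ⟨f', g', h', hf', hg', hh'⟩ hall
        · have hll : l = l' := by
            by_contra hne
            apply hall
            rcases h1 : psi l u with f | ⟨l1, u1⟩
            · rcases h2 : psi l v with g | ⟨l2, v2⟩
              · rcases h3 : psi l w with h | ⟨l3, w3⟩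
                · exact ⟨f, g, h, rfl, rfl, rfl⟩
                · exact absurd ((psi_eq_inr hα h3).1.trans
                    (psi_eq_inr hα (hw.symm.trans h3)).1.symm) hne
              · exact absurd ((psi_eq_inr hα h2).1.trans
                  (psi_eq_inr hα (hv.symm.trans h2)).1.symm) hne
            · exact absurd ((psi_eq_inr hα h1).1.trans
                (psi_eq_inr hα (hu.symm.trans h1)).1.symm) hne
          subst hll
          rw [psi_injective hα hc1 hu, psi_injective hα hc1 hv, psi_injective hα hc1 hw]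
          exact hs
      · intro hs
        exact Or.inr ⟨hall, l, u, v, w, ⟨c1, hc1⟩, rfl, rfl, rfl, hs⟩

/-- a vertex of a clique containing a point outside the `α`-part comes from the line -/
theorem exists_pull {l : ι → Option (Al sA P α)} {u : P.V} (hα : StrictMono α)
    {q : (ι → P.V) ⊕ ((ι → Option (Al sA P α)) × P.V)}
    (h : bigE P sA α ι (Sum.inr (l, u)) q ∨ bigE P sA α ι q (Sum.inr (l, u)) ∨
      q = Sum.inr (l, u)) (hu : psi l u = Sum.inr (l, u)) : ∃ v, q = psi l v := by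
  rcases h with h | h | h
  · obtain ⟨-, -, v, hv, -⟩ := bigE_inr_left hα h
    exact ⟨v, hv⟩
  · obtain ⟨-, -, v, hv, -⟩ := bigE_inr_right hα h
    exact ⟨v, hv⟩
  · exact ⟨u, h.trans hu.symm⟩

theorem good_bigSys (hα : StrictMono α) [Finite A] [Finite ι] (c0 : ι)
    {s0 : I → I → I → Prop} (hG : Good s0 P) : Good s0 (bigSys P sA α hα ι c0) where
  tri := by
    intro p q r hpq hqr hpr
    change bigE P sA α ι p q at hpq
    change bigE P sA α ι q r at hqr
    change bigE P sA α ι p r at hpr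
    by_cases hall : ∃ f g h, p = Sum.inl f ∧ q = Sum.inl g ∧ r = Sum.inl h
    · obtain ⟨f, g, h, rfl, rfl, rfl⟩ := hall
      obtain ⟨hf, hg, hfg⟩ := bigE_inl hα hpq
      obtain ⟨-, hh, hgh⟩ := bigE_inl hα hqr
      obtain ⟨-, -, hfh⟩ := bigE_inl hα hpr
      change bigS P sA α ι (Sum.inl f) (Sum.inl g) (Sum.inl h) ↔
        s0 (P.pr (f c0)) (P.pr (g c0)) (P.pr (h c0))
      have hs : ∀ c, P.s (f c) (g c) (h c) ↔ s0 (P.pr (f c0)) (P.pr (g c0)) (P.pr (h c0)) := by
        intro c
        rw [hG.tri _ _ _ (hfg c) (hgh c) (hfh c), hf c c0, hg c c0, hh c c0]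
      have hp : ∀ c, pushS sA α (P.pr (f c)) (P.pr (g c)) (P.pr (h c)) ↔
          pushS sA α (P.pr (f c0)) (P.pr (g c0)) (P.pr (h c0)) := by
        intro c
        rw [hf c c0, hg c c0, hh c c0]
      unfold bigS
      constructor
      · rintro (⟨f', g', h', hf', hg', hh', hor⟩ | ⟨hno, -⟩)
        · cases Sum.inl.inj hf'; cases Sum.inl.inj hg'; cases Sum.inl.inj hh'
          rcases hor with ⟨-, h2⟩ | ⟨-, c, h2⟩
          · exact (hs c0).1 (h2 c0)
          · exact (hs c).1 h2
        · exact absurd ⟨f, g, h, rfl, rfl, rfl⟩ hno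
      · intro hs0
        left
        refine ⟨f, g, h, rfl, rfl, rfl, ?_⟩
        by_cases hp0 : pushS sA α (P.pr (f c0)) (P.pr (g c0)) (P.pr (h c0))
        · exact Or.inl ⟨fun c => (hp c).2 hp0, fun c => (hs c).2 hs0⟩
        · exact Or.inr ⟨fun c hc => hp0 ((hp c).1 hc), c0, (hs c0).2 hs0⟩
    · -- everything comes from a line
      have key : ∃ l : ι → Option (Al sA P α), (∃ c, l c = none) ∧ ∃ u v w,
          p = psi l u ∧ q = psi l v ∧ r = psi l w := by
        rcases p with f | ⟨l, u⟩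
        · rcases q with g | ⟨l, v⟩
          · rcases r with h | ⟨l, w⟩
            · exact absurd ⟨f, g, h, rfl, rfl, rfl⟩ hall
            · obtain ⟨hl, hw, u, hu, -⟩ := bigE_inr_right hα hpr
              obtain ⟨-, -, v, hv, -⟩ := bigE_inr_right hα hqr
              exact ⟨l, hl, u, v, w, hu, hv, hw.symm⟩
          · obtain ⟨hl, hv, u, hu, -⟩ := bigE_inr_right hα hpq
            obtain ⟨-, -, w, hw, -⟩ := bigE_inr_left hα hqr
            exact ⟨l, hl, u, v, w, hu, hv.symm, hw⟩
        · obtain ⟨hl, hu, v, hv, -⟩ := bigE_inr_left hα hpq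
          obtain ⟨-, -, w, hw, -⟩ := bigE_inr_left hα hpr
          exact ⟨l, hl, u, v, w, hu.symm, hv, hw⟩
      obtain ⟨l, hl, u, v, w, rfl, rfl, rfl⟩ := key
      have huv := bigE_psi hα hl hpq
      have hvw := bigE_psi hα hl hqr
      have huw := bigE_psi hα hl hpr
      have hH := isHom_psi hα (sA := sA) c0 hl
      rw [hH.s u v w huv hvw huw, hH.pr, hH.pr, hH.pr]
      exact hG.tri u v w huv hvw huw
  quad := by
    intro p q r t hpq hpr hpt hqr hqt hrt
    change bigE P sA α ι p q at hpq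
    change bigE P sA α ι p r at hpr
    change bigE P sA α ι p t at hpt
    change bigE P sA α ι q r at hqr
    change bigE P sA α ι q t at hqt
    change bigE P sA α ι r t at hrt
    by_cases hall : ∃ f g h k, p = Sum.inl f ∧ q = Sum.inl g ∧ r = Sum.inl h ∧ t = Sum.inl k
    · obtain ⟨f, g, h, k, rfl, rfl, rfl, rfl⟩ := hall
      exact hG.quad (f c0) (g c0) (h c0) (k c0) ((bigE_inl hα hpq).2.2 c0)
        ((bigE_inl hα hpr).2.2 c0) ((bigE_inl hα hpt).2.2 c0) ((bigE_inl hα hqr).2.2 c0)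
        ((bigE_inl hα hqt).2.2 c0) ((bigE_inl hα hrt).2.2 c0)
    · have key : ∃ l : ι → Option (Al sA P α), (∃ c, l c = none) ∧ ∃ u v w x,
          p = psi l u ∧ q = psi l v ∧ r = psi l w ∧ t = psi l x := by
        rcases p with f | ⟨l, u⟩
        · rcases q with g | ⟨l, v⟩
          · rcases r with h | ⟨l, w⟩
            · rcases t with k | ⟨l, x⟩
              · exact absurd ⟨f, g, h, k, rfl, rfl, rfl, rfl⟩ hall
              · obtain ⟨hl, hx, u, hu, -⟩ := bigE_inr_right hα hpt
                obtain ⟨-, -, v, hv, -⟩ := bigE_inr_right hα hqt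
                obtain ⟨-, -, w, hw, -⟩ := bigE_inr_right hα hrt
                exact ⟨l, hl, u, v, w, x, hu, hv, hw, hx.symm⟩
            · obtain ⟨hl, hw, u, hu, -⟩ := bigE_inr_right hα hpr
              obtain ⟨-, -, v, hv, -⟩ := bigE_inr_right hα hqr
              obtain ⟨-, -, x, hx, -⟩ := bigE_inr_left hα hrt
              exact ⟨l, hl, u, v, w, x, hu, hv, hw.symm, hx⟩
          · obtain ⟨hl, hv, u, hu, -⟩ := bigE_inr_right hα hpq
            obtain ⟨-, -, w, hw, -⟩ := bigE_inr_left hα hqr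
            obtain ⟨-, -, x, hx, -⟩ := bigE_inr_left hα hqt
            exact ⟨l, hl, u, v, w, x, hu, hv.symm, hw, hx⟩
        · obtain ⟨hl, hu, v, hv, -⟩ := bigE_inr_left hα hpq
          obtain ⟨-, -, w, hw, -⟩ := bigE_inr_left hα hpr
          obtain ⟨-, -, x, hx, -⟩ := bigE_inr_left hα hpt
          exact ⟨l, hl, u, v, w, x, hu.symm, hv, hw, hx⟩
      obtain ⟨l, hl, u, v, w, x, rfl, rfl, rfl, rfl⟩ := key
      have hH := isHom_psi hα (sA := sA) c0 hl
      rw [hH.pr, hH.pr, hH.pr, hH.pr]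
      exact hG.quad u v w x (bigE_psi hα hl hpq) (bigE_psi hα hl hpr) (bigE_psi hα hl hpt)
        (bigE_psi hα hl hqr) (bigE_psi hα hl hqt) (bigE_psi hα hl hrt)

end step

/-- The partite step. -/
theorem partite_step {κ : Type} [Finite κ] [Nonempty κ] [Finite A] (sA : A → A → A → Prop)
    (P : Sys I) (α : A → I) (hα : StrictMono α) :
    ∃ Q : Sys I, (∀ s0, Good s0 P → Good s0 Q) ∧ ∀ χ : (A → Q.V) → κ,
      ∃ f, IsHom P Q f ∧ ∃ c, ∀ a, IsCop sA P α a → χ (f ∘ a) = c := by
  have := P.fin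
  have : Finite (Al sA P α) := by unfold Al; infer_instance
  obtain ⟨ι, _, hι⟩ := Combinatorics.Line.exists_mono_in_high_dimension (Al sA P α) κ
  obtain ⟨l0, -⟩ := hι (fun _ => Classical.arbitrary κ)
  obtain ⟨c0, -⟩ := l0.proper
  refine ⟨bigSys P sA α hα ι c0, fun s0 h => good_bigSys hα c0 h, fun χ => ?_⟩
  obtain ⟨l, c, hl⟩ := hι (fun p => χ (fun x => Sum.inl (fun i => (p i).1 x)))
  refine ⟨psi l.idxFun, isHom_psi hα c0 l.proper, c, fun a ha => ?_⟩
  have h1 := hl ⟨a, ha⟩
  rw [← h1]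
  apply congrArg χ
  funext x
  rw [Function.comp_apply, psi_inl hα l.idxFun (ha.pr x).symm]
  apply congrArg Sum.inl
  funext i
  rw [Combinatorics.Line.apply_def]
  change _ = ((l.idxFun i).getD ⟨a, ha⟩).1 x
  rcases l.idxFun i with _ | b <;> rfl

/-- Iterated partite construction. -/
theorem partite {κ : Type} [Finite κ] [Nonempty κ] [Finite A] (sA : A → A → A → Prop)
    (P : Sys I) (J : Finset (A → I)) (hJ : ∀ α ∈ J, StrictMono α) :
    ∃ Q : Sys I, (∀ s0, Good s0 P → Good s0 Q) ∧ ∀ χ : (A → Q.V) → κ,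
      ∃ f, IsHom P Q f ∧ ∀ α ∈ J, ∃ c, ∀ a, IsCop sA P α a → χ (f ∘ a) = c := by
  classical
  induction J using Finset.induction_on with
  | empty =>
    exact ⟨P, fun _ h => h, fun χ => ⟨fun u => u, IsHom.id P, by simp⟩⟩
  | insert α J hα ih =>
    obtain ⟨Q, hQ, hQχ⟩ := ih (fun β hβ => hJ β (Finset.mem_insert_of_mem hβ))
    obtain ⟨R, hR, hRχ⟩ := partite_step (κ := κ) sA Q α (hJ α (Finset.mem_insert_self _ _))
    refine ⟨R, fun s0 h => hR s0 (hQ s0 h), fun χ => ?_⟩
    obtain ⟨g, hg, c, hc⟩ := hRχ χ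
    obtain ⟨f, hf, hfc⟩ := hQχ (fun a => χ (g ∘ a))
    refine ⟨g ∘ f, hg.comp hf, fun β hβ => ?_⟩
    rcases Finset.mem_insert.1 hβ with rfl | hβ
    · exact ⟨c, fun a ha => hc (f ∘ a) (ha.map hf)⟩
    · obtain ⟨d, hd⟩ := hfc β hβ
      exact ⟨d, fun a ha => hd a ha⟩

end Pool.Agent.Lib_helper38.HT
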