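import Pool.Agent.Lib_helper38.H4.Ramsey
import Pool.Agent.Lib_helper38.H4.Partite

/-!
The class of finite ordered `H_4`-free 3-hypertournaments, in the form (linear order, relation on
increasing triples without alternating quadruples), is a Ramsey class.
-/

namespace Pool.Agent.Lib_helper38.HT

/-- Embeddings of ordered sets with a relation on increasing triples. -/
structure Emb {A B : Type} [LinearOrder A] [LinearOrder B] (sA : A → A → A → Prop)
    (sB : B → B → B → Prop) (f : A → B) : Prop where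
  mono : StrictMono f
  s : ∀ x y z, x < y → y < z → (sB (f x) (f y) (f z) ↔ sA x y z)

/-- The start of a partite construction: disjoint copies of `B` over a set of maps `β`. -/
def start {I B : Type} [LinearOrder I] [Finite I] [LinearOrder B] [Finite B]
    (S : Set (B → I)) (hS : ∀ β ∈ S, StrictMono β) (sB : B → B → B → Prop) : Sys I where
  V := S × B
  fin := inferInstance
  pr := fun p => p.1.1 p.2
  E := fun p q => p.1 = q.1 ∧ p.2 < q.2
  hE := by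
    rintro ⟨⟨β, hβ⟩, b⟩ ⟨⟨γ, hγ⟩, c⟩ ⟨h1, h2⟩
    cases h1
    exact hS β hβ h2
  s := fun p q r => sB p.2 q.2 r.2

/-- A linear order on the vertices of a system refining the projection. -/
@[reducible] noncomputable def sysOrder {I : Type} [LinearOrder I] (Q : Sys I) : LinearOrder Q.V :=
  have := Q.fin
  have e : Q.V ≃ Fin (Nat.card Q.V) := Finite.equivFin Q.V
  LinearOrder.lift' (fun u => (toLex (Q.pr u, e u) : I ×ₗ Fin (Nat.card Q.V)))
    (fun u v h => e.injective (congrArg Prod.snd (toLex.injective h)))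

theorem sysOrder_lt {I : Type} [LinearOrder I] (Q : Sys I) {u v : Q.V}
    (h : Q.pr u < Q.pr v) : (sysOrder Q).lt u v := by
  unfold sysOrder
  exact Prod.Lex.toLex_lt_toLex.2 (Or.inl h)

section

variable {A B κ : Type} [LinearOrder A] [Finite A] [LinearOrder B] [Finite B]
  [Finite κ] [Nonempty κ]

/-- All ordered 3-hypertournaments form a Ramsey class. -/
theorem core_all (sA : A → A → A → Prop) (sB : B → B → B → Prop) :
    ∃ (C : Type) (_ : LinearOrder C) (_ : Finite C) (s0 : C → C → C → Prop),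
      ∀ χ : (A → C) → κ, ∃ β : B → C, Emb sB s0 β ∧ ∃ c, ∀ γ : A → B, Emb sA sB γ →
        χ (β ∘ γ) = c := by
  classical
  obtain ⟨r, hr⟩ := ramsey (κ := κ) A B
  let P : Sys (Fin r) := start {β : B → Fin r | StrictMono β} (fun _ h => h) sB
  obtain ⟨J, hJ⟩ : ∃ J : Finset (A → Fin r), ∀ α, α ∈ J ↔ StrictMono α :=
    ⟨(Set.toFinite {α | StrictMono α}).toFinset, by simp⟩
  obtain ⟨Q, -, hQ⟩ := partite (κ := κ) sA P J (fun α hα => (hJ α).1 hα)
  refine ⟨Q.V, sysOrder Q, Q.fin, Q.s, fun χ => ?_⟩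
  obtain ⟨f, hf, hfc⟩ := hQ χ
  choose! c hc using hfc
  obtain ⟨β, hβ, d, hd⟩ := hr c
  refine ⟨fun b => f (⟨β, hβ⟩, b), ?_, d, ?_⟩
  · let _ := sysOrder Q
    refine ⟨fun x y hxy => sysOrder_lt Q ?_, fun x y z hxy hyz => ?_⟩
    · rw [hf.pr, hf.pr]
      exact hβ hxy
    · exact hf.s (⟨β, hβ⟩, x) (⟨β, hβ⟩, y) (⟨β, hβ⟩, z) ⟨rfl, hxy⟩ ⟨rfl, hyz⟩
        ⟨rfl, hxy.trans hyz⟩
  · intro γ hγ
    have hmem : β ∘ γ ∈ J := (hJ _).2 (hβ.comp hγ.mono)
    have := hc (β ∘ γ) hmem (fun x => (⟨β, hβ⟩, γ x))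
      ⟨fun _ => rfl, fun x y hxy => ⟨rfl, hγ.mono hxy⟩, fun x y z hxy hyz => hγ.s x y z hxy hyz⟩
    rw [hd γ hγ.mono] at this
    exact this

/-- The completion: fill in the missing pairs by the dominance rule. -/
def compl {I : Type} [LinearOrder I] (s0 : I → I → I → Prop) (Q : Sys I) (x y z : Q.V) : Prop :=
  ¬ Q.E y z ∨ (Q.E y z ∧ Q.E x z ∧ (¬ Q.E x y ∨ (Q.E x y ∧ s0 (Q.pr x) (Q.pr y) (Q.pr z))))

theorem compl_nonAlt {I : Type} [LinearOrder I] (s0 : I → I → I → Prop) (Q : Sys I)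
    (hG : Good s0 Q) (w x y z : Q.V) : ¬ Alt (compl s0 Q) w x y z := by
  have hq := hG.quad w x y z
  unfold Alt at *
  unfold compl
  by_cases h1 : Q.E w x <;> by_cases h2 : Q.E w y <;> by_cases h3 : Q.E w z <;>
    by_cases h4 : Q.E x y <;> by_cases h5 : Q.E x z <;> by_cases h6 : Q.E y z <;>
    simp only [h1, h2, h3, h4, h5, h6, not_true, not_false_iff, true_and, false_and, true_or,
      false_or, and_true, and_false, or_true, or_false, iff_true, iff_false, true_iff,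
      false_iff, forall_true_left, not_and, imp_false] at hq ⊢ <;> tauto

/-- Ordered `H_4`-free 3-hypertournaments form a Ramsey class. -/
theorem core (sA : A → A → A → Prop) (sB : B → B → B → Prop) (hB : NonAlt sB) :
    ∃ (C : Type) (_ : LinearOrder C) (_ : Finite C) (sC : C → C → C → Prop), NonAlt sC ∧
      ∀ χ : (A → C) → κ, ∃ β : B → C, Emb sB sC β ∧ ∃ c, ∀ γ : A → B, Emb sA sB γ →
        χ (β ∘ γ) = c := by
  classical
  obtain ⟨I, _, _, s0, hr⟩ := core_all (κ := κ) sA sB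
  let P : Sys I := start {β : B → I | Emb sB s0 β} (fun _ h => h.mono) sB
  have hP : Good s0 P := by
    refine ⟨?_, ?_⟩
    · rintro ⟨⟨β, hβ⟩, b⟩ ⟨⟨β', hβ'⟩, b'⟩ ⟨⟨β'', hβ''⟩, b''⟩ ⟨h1, h2⟩ ⟨h3, h4⟩ -
      cases h1
      cases h3
      exact (hβ.s b b' b'' h2 h4).symm
    · rintro ⟨⟨β, hβ⟩, b⟩ ⟨⟨β', hβ'⟩, b'⟩ ⟨⟨β'', hβ''⟩, b''⟩ ⟨⟨β₃, hβ₃⟩, b₃⟩ ⟨h1, h2⟩ ⟨h3, h4⟩
        ⟨h5, h6⟩ ⟨-, h7⟩ ⟨-, h8⟩ ⟨-, h9⟩ hAlt
      cases h1
      cases h3
      cases h5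
      have h2' : b < b' := h2
      have h4' : b < b'' := h4
      have h7' : b' < b'' := h7
      have h8' : b' < b₃ := h8
      have h9' : b'' < b₃ := h9
      apply hB b b' b'' b₃ h2' h7' h9'
      change Alt s0 (β b) (β b') (β b'') (β b₃) at hAlt
      unfold Alt at hAlt ⊢
      rwa [hβ.s _ _ _ h2' h7', hβ.s _ _ _ h4' h9', hβ.s _ _ _ h2' h8', hβ.s _ _ _ h7' h9']
        at hAlt
  obtain ⟨J, hJ⟩ : ∃ J : Finset (A → I), ∀ α, α ∈ J ↔ StrictMono α :=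
    ⟨(Set.toFinite {α | StrictMono α}).toFinset, by simp⟩
  obtain ⟨Q, hQG, hQ⟩ := partite (κ := κ) sA P J (fun α hα => (hJ α).1 hα)
  have hG := hQG s0 hP
  refine ⟨Q.V, sysOrder Q, Q.fin, compl s0 Q, fun w x y z _ _ _ => compl_nonAlt s0 Q hG w x y z,
    fun χ => ?_⟩
  obtain ⟨f, hf, hfc⟩ := hQ χ
  choose! c hc using hfc
  obtain ⟨β, hβ, d, hd⟩ := hr c
  refine ⟨fun b => f (⟨β, hβ⟩, b), ?_, d, ?_⟩
  · let _ := sysOrder Q
    refine ⟨fun x y hxy => sysOrder_lt Q ?_, fun x y z hxy hyz => ?_⟩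
    · rw [hf.pr, hf.pr]
      exact hβ.mono hxy
    · have h1 : Q.E (f (⟨β, hβ⟩, x)) (f (⟨β, hβ⟩, y)) := hf.E _ _ ⟨rfl, hxy⟩
      have h2 : Q.E (f (⟨β, hβ⟩, y)) (f (⟨β, hβ⟩, z)) := hf.E _ _ ⟨rfl, hyz⟩
      have h3 : Q.E (f (⟨β, hβ⟩, x)) (f (⟨β, hβ⟩, z)) := hf.E _ _ ⟨rfl, hxy.trans hyz⟩
      unfold compl
      simp only [h1, h2, h3, not_true, true_and, false_or]
      rw [hf.pr, hf.pr, hf.pr]
      exact hβ.s x y z hxy hyz
  · intro γ hγ
    have hmem : β ∘ γ ∈ J := (hJ _).2 (hβ.mono.comp hγ.mono)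
    have := hc (β ∘ γ) hmem (fun x => (⟨β, hβ⟩, γ x))
      ⟨fun _ => rfl, fun x y hxy => ⟨rfl, hγ.mono hxy⟩, fun x y z hxy hyz => hγ.s x y z hxy hyz⟩
    rw [hd γ hγ] at this
    exact this

end

end Pool.Agent.Lib_helper38.HT
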