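import Mathlib

/-!
Definitions for the problem on Ramsey expansions of the generic `H_4`-free 3-hypertournament.
-/

open FirstOrder FirstOrder.Language CategoryTheory

namespace Pool.Agent.Lib_helper38.HT

/-- Relation symbols of the language `{R}`: a single ternary symbol. -/
inductive TernSymb : ℕ → Type
  | R : TernSymb 3

/-- The relational language `{R}` with a single ternary relation symbol. -/
def LR : FirstOrder.Language.{0, 0} := ⟨fun _ => Empty, TernSymb⟩

instance : LR.IsRelational := fun _ => inferInstanceAs (IsEmpty Empty)

instance : Countable (Σ n, LR.Functions n) := inferInstance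

/-- `R(x, y, z)` holds in the `{R}`-structure `M`. -/
def RelR {M : Type} [LR.Structure M] (x y z : M) : Prop :=
  Structure.RelMap (L := LR) TernSymb.R ![x, y, z]

/-- 3-hypertournaments: `R` holds only on triples of distinct elements, is invariant under cyclic
shifts, and on every 3-element set it holds for exactly one of the two cyclic orderings. -/
structure IsHypertournament (M : Type) [LR.Structure M] : Prop where
  distinct : ∀ x y z : M, RelR x y z → x ≠ y ∧ y ≠ z ∧ x ≠ z
  cyclic : ∀ x y z : M, RelR x y z → RelR y z x
  exactly_one : ∀ x y z : M, x ≠ y → y ≠ z → x ≠ z → (RelR x y z ↔ ¬ RelR x z y)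

/-- The generating triples of `H_4`. -/
def h4Triples : Set (Fin 4 × Fin 4 × Fin 4) := {(0, 1, 3), (1, 2, 3), (2, 0, 3), (0, 2, 1)}

/-- `R(x, y, z)` holds in `H_4` iff `(x, y, z)` is a cyclic shift of a generating triple. -/
def h4Rel (x y z : Fin 4) : Prop :=
  (x, y, z) ∈ h4Triples ∨ (y, z, x) ∈ h4Triples ∨ (z, x, y) ∈ h4Triples

/-- The interpretation of a ternary relation as an `{R}`-structure. -/
@[reducible] def structureOfRel {M : Type} (r : M → M → M → Prop) : LR.Structure M where
  funMap := fun f => Empty.elim f
  RelMap := fun {n} s => match n, s with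
    | _, TernSymb.R => fun v => r (v 0) (v 1) (v 2)

/-- The 3-hypertournament `H_4` on four vertices. -/
def H4 : Bundled.{0} LR.Structure := ⟨Fin 4, structureOfRel h4Rel⟩

/-- The class of finite `H_4`-free 3-hypertournaments. -/
def ClassW : Set (Bundled.{0} LR.Structure) :=
  {M | Finite M ∧ IsHypertournament M ∧ IsEmpty (H4 ↪[LR] M)}

/-- The Ramsey property of a class `K` of finite structures: for all `A`, `B` in `K` and `k ≥ 1`
there is `C` in `K` such that for every colouring with `k` colours of the substructures of `C`
isomorphic to `A` there is a substructure `B'` of `C` isomorphic to `B` all of whose substructures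
isomorphic to `A` have the same colour. -/
def RamseyProperty {L : FirstOrder.Language.{0, 0}} (K : Set (Bundled.{0} L.Structure)) : Prop :=
  ∀ A ∈ K, ∀ B ∈ K, ∀ k : ℕ, 1 ≤ k → ∃ C ∈ K,
    ∀ χ : {A' : L.Substructure C // Nonempty (A ≃[L] A')} → Fin k,
      ∃ B' : L.Substructure C, Nonempty (B ≃[L] B') ∧
        ∃ c : Fin k, ∀ A' : {A' : L.Substructure C // Nonempty (A ≃[L] A')},
          A'.1 ≤ B' → χ A' = c

/-- `M` has a finite-language Ramsey expansion: there are a finite relational language `L'`
extending `L` and an expansion of `M` to `L'` which is ultrahomogeneous and whose age has the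
Ramsey property. -/
def HasFiniteRamseyExpansion (L : FirstOrder.Language.{0, 0}) (M : Type) [L.Structure M] : Prop :=
  ∃ (L' : FirstOrder.Language.{0, 0}) (φ : L →ᴸ L') (_ : L'.Structure M),
    L'.IsRelational ∧ Finite (Σ n, L'.Relations n) ∧ φ.Injective ∧ φ.IsExpansionOn M ∧
      L'.IsUltrahomogeneous M ∧ RamseyProperty (L'.age M)

end Pool.Agent.Lib_helper38.HT
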