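import Pool.Agent.Lib_helper38.H4.Lang

/-!
Extension of finite maps into the generic structure.
-/

open FirstOrder FirstOrder.Language CategoryTheory

namespace Pool.Agent.Lib_helper38.HT

/-- `H_4`-free 3-hypertournaments. -/
structure HTAx {X : Type} (R : X → X → X → Prop) : Prop where
  dist : ∀ x y z, R x y z → x ≠ y ∧ y ≠ z ∧ x ≠ z
  cyc : ∀ x y z, R x y z → R y z x
  anti : ∀ x y z, R x y z → ¬ R x z y
  conn : ∀ x y z, x ≠ y → y ≠ z → x ≠ z → R x y z ∨ R x z y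
  clo : ∀ w x y z, R w x y → R w y z → R w z x → R x y z

theorem HTAx.cyc_iff {X : Type} {R : X → X → X → Prop} (h : HTAx R) (x y z : X) :
    R x y z ↔ R y z x :=
  ⟨h.cyc x y z, fun k => h.cyc _ _ _ (h.cyc _ _ _ k)⟩

theorem OHT.ht {X : Type} {lt : X → X → Prop} {R : X → X → X → Prop}
    (h : OHT (Set.univ : Set X) lt R) : HTAx R where
  dist x y z := h.dist x trivial y trivial z trivial
  cyc x y z := h.cyc x trivial y trivial z trivial
  anti x y z := h.anti x trivial y trivial z trivial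
  conn x y z := h.conn x trivial y trivial z trivial
  clo w x y z := h.clo w trivial x trivial y trivial z trivial

/-- strict linear orders -/
structure LtAx {X : Type} (lt : X → X → Prop) : Prop where
  irrefl : ∀ x, ¬ lt x x
  trans : ∀ x y z, lt x y → lt y z → lt x z
  total : ∀ x y, x ≠ y → lt x y ∨ lt y x

theorem OHT.ltAx {X : Type} {lt : X → X → Prop} {R : X → X → X → Prop}
    (h : OHT (Set.univ : Set X) lt R) : LtAx lt where
  irrefl x := h.irrefl x trivial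
  trans x y z := h.trans x trivial y trivial z trivial
  total x y := h.total x trivial y trivial

theorem OHT.mk' {X : Type} {lt : X → X → Prop} {R : X → X → X → Prop} (h1 : LtAx lt)
    (h2 : HTAx R) : OHT (Set.univ : Set X) lt R where
  irrefl x _ := h1.irrefl x
  trans x _ y _ z _ := h1.trans x y z
  total x _ y _ := h1.total x y
  dist x _ y _ z _ := h2.dist x y z
  cyc x _ y _ z _ := h2.cyc x y z
  anti x _ y _ z _ := h2.anti x y z
  conn x _ y _ z _ := h2.conn x y z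
  clo w _ x _ y _ z _ := h2.clo w x y z

/-- The generic ordered structure. -/
structure Generic (lt : ℕ → ℕ → Prop) (R : ℕ → ℕ → ℕ → Prop) : Prop where
  ltAx : LtAx lt
  ht : HTAx R
  ext : ∀ (F L : Finset ℕ) (T : Finset (ℕ × ℕ)), Valid lt R F L T → ∃ w, Real lt R F L T w

section

variable {lt : ℕ → ℕ → Prop} {R : ℕ → ℕ → ℕ → Prop} {X : Type} {RX : X → X → X → Prop}

/-- One new point. -/
theorem ext_point (hG : Generic lt R) (hX : HTAx RX) (S : Finset X) (f : X → ℕ)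
    (hinj : ∀ x ∈ S, ∀ y ∈ S, f x = f y → x = y)
    (hR : ∀ x ∈ S, ∀ y ∈ S, ∀ z ∈ S, (R (f x) (f y) (f z) ↔ RX x y z)) (m : X) (hm : m ∉ S)
    (P : X → Prop) (hP : ∀ x ∈ S, ∀ y ∈ S, P x → lt (f y) (f x) → P y) :
    ∃ w : ℕ, (∀ x ∈ S, f x ≠ w) ∧ (∀ x ∈ S, lt (f x) w ↔ P x) ∧
      ∀ x ∈ S, ∀ y ∈ S, (R w (f x) (f y) ↔ RX m x y) := by
  classical
  let F : Finset ℕ := S.image f
  let L : Finset ℕ := (S.filter P).image f
  let T : Finset (ℕ × ℕ) := ((S ×ˢ S).filter (fun p => RX m p.1 p.2)).image (Prod.map f f)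
  have hF : ∀ {a}, a ∈ F → ∃ x ∈ S, f x = a := fun h => Finset.mem_image.1 h
  have hFmem : ∀ {x}, x ∈ S → f x ∈ F := fun h => Finset.mem_image_of_mem f h
  have hL : ∀ {x}, x ∈ S → (f x ∈ L ↔ P x) := by
    intro x hx
    constructor
    · intro h
      obtain ⟨y, hy, hxy⟩ := Finset.mem_image.1 h
      obtain ⟨hy1, hy2⟩ := Finset.mem_filter.1 hy
      rwa [← hinj y hy1 x hx hxy]
    · intro h
      exact Finset.mem_image_of_mem f (Finset.mem_filter.2 ⟨hx, h⟩)
  have hT : ∀ {x y}, x ∈ S → y ∈ S → ((f x, f y) ∈ T ↔ RX m x y) := by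
    intro x y hx hy
    constructor
    · intro h
      obtain ⟨⟨x', y'⟩, h1, h2⟩ := Finset.mem_image.1 h
      obtain ⟨h3, h4⟩ := Finset.mem_filter.1 h1
      obtain ⟨h5, h6⟩ := Finset.mem_product.1 h3
      have h7 : f x' = f x := congrArg Prod.fst h2
      have h8 : f y' = f y := congrArg Prod.snd h2
      rw [← hinj x' h5 x hx h7, ← hinj y' h6 y hy h8]
      exact h4
    · intro h
      exact Finset.mem_image.2 ⟨(x, y), Finset.mem_filter.2
        ⟨Finset.mem_product.2 ⟨hx, hy⟩, h⟩, rfl⟩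
  have hV : Valid lt R F L T := by
    refine ⟨?_, ?_, ?_, ?_, ?_, ?_⟩
    · exact Finset.image_subset_image (Finset.filter_subset _ _)
    · intro a ha b hb hba
      obtain ⟨x, hx, rfl⟩ := Finset.mem_image.1 ha
      obtain ⟨hx1, hx2⟩ := Finset.mem_filter.1 hx
      obtain ⟨y, hy, rfl⟩ := hF hb
      exact (hL hy).2 (hP x hx1 y hy hx2 hba)
    · intro a ha h
      obtain ⟨x, hx, rfl⟩ := hF ha
      exact (hX.dist _ _ _ ((hT hx hx).1 h)).2.1 rfl
    · intro a ha b hb h h'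
      obtain ⟨x, hx, rfl⟩ := hF ha
      obtain ⟨y, hy, rfl⟩ := hF hb
      exact hX.anti _ _ _ ((hT hx hy).1 h) ((hT hy hx).1 h')
    · intro a ha b hb hab
      obtain ⟨x, hx, rfl⟩ := hF ha
      obtain ⟨y, hy, rfl⟩ := hF hb
      have hxy : x ≠ y := fun h => hab (congrArg f h)
      rw [hT hx hy, hT hy hx]
      exact hX.conn m x y (fun h => hm (h ▸ hx)) hxy (fun h => hm (h ▸ hy))
    · intro a ha b hb c hc h1 h2 h3
      obtain ⟨x, hx, rfl⟩ := hF ha
      obtain ⟨y, hy, rfl⟩ := hF hb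
      obtain ⟨z, hz, rfl⟩ := hF hc
      rw [hR x hx y hy z hz]
      exact hX.clo m x y z ((hT hx hy).1 h1) ((hT hy hz).1 h2) ((hT hz hx).1 h3)
  obtain ⟨w, h1, h2, h3⟩ := hG.ext F L T hV
  refine ⟨w, fun x hx h => h1 (h ▸ hFmem hx), fun x hx => (h2 _ (hFmem hx)).trans (hL hx),
    fun x hx y hy => (h3 _ (hFmem hx) _ (hFmem hy)).trans (hT hx hy)⟩

/-- The extended map respects `R`. -/
theorem ext_R (hG : HTAx R) (hX : HTAx RX) (S : Finset X) (f g : X → ℕ) (m : X) (hm : m ∉ S)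
    (w : ℕ) (hgm : g m = w) (hgf : ∀ x ∈ S, g x = f x)
    (hR : ∀ x ∈ S, ∀ y ∈ S, ∀ z ∈ S, (R (f x) (f y) (f z) ↔ RX x y z))
    (hw : ∀ x ∈ S, ∀ y ∈ S, (R w (f x) (f y) ↔ RX m x y)) :
    ∀ x, (x = m ∨ x ∈ S) → ∀ y, (y = m ∨ y ∈ S) → ∀ z, (z = m ∨ z ∈ S) →
      (R (g x) (g y) (g z) ↔ RX x y z) := by
  have h1 : ∀ a b, ¬ R a a b := fun a b h => (hG.dist _ _ _ h).1 rfl
  have h2 : ∀ a b, ¬ R a b b := fun a b h => (hG.dist _ _ _ h).2.1 rfl
  have h3 : ∀ a b, ¬ R a b a := fun a b h => (hG.dist _ _ _ h).2.2 rfl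
  have k1 : ∀ a b, ¬ RX a a b := fun a b h => (hX.dist _ _ _ h).1 rfl
  have k2 : ∀ a b, ¬ RX a b b := fun a b h => (hX.dist _ _ _ h).2.1 rfl
  have k3 : ∀ a b, ¬ RX a b a := fun a b h => (hX.dist _ _ _ h).2.2 rfl
  rintro x (rfl | hx) y (rfl | hy) z (rfl | hz)
  · exact iff_of_false (h1 _ _) (k1 _ _)
  · exact iff_of_false (h1 _ _) (k1 _ _)
  · exact iff_of_false (h3 _ _) (k3 _ _)
  · rw [hgm, hgf y hy, hgf z hz]
    exact hw y hy z hz
  · exact iff_of_false (h2 _ _) (k2 _ _)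
  · rw [hgm, hgf x hx, hgf z hz, hG.cyc_iff, hX.cyc_iff x]
    exact hw z hz x hx
  · rw [hgm, hgf x hx, hgf y hy, ← hG.cyc_iff, ← hX.cyc_iff z]
    exact hw x hx y hy
  · rw [hgf x hx, hgf y hy, hgf z hz]
    exact hR x hx y hy z hz

variable {ltX : X → X → Prop}

/-- finite embeddings of ordered structures -/
structure PO (lt : ℕ → ℕ → Prop) (R : ℕ → ℕ → ℕ → Prop) (ltX : X → X → Prop)
    (RX : X → X → X → Prop) (S : Finset X) (f : X → ℕ) : Prop where
  lt : ∀ x ∈ S, ∀ y ∈ S, (lt (f x) (f y) ↔ ltX x y)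
  R : ∀ x ∈ S, ∀ y ∈ S, ∀ z ∈ S, (R (f x) (f y) (f z) ↔ RX x y z)

/-- finite embeddings of unordered structures -/
structure PR (R : ℕ → ℕ → ℕ → Prop) (RX : X → X → X → Prop) (S : Finset X) (f : X → ℕ) :
    Prop where
  inj : ∀ x ∈ S, ∀ y ∈ S, f x = f y → x = y
  R : ∀ x ∈ S, ∀ y ∈ S, ∀ z ∈ S, (R (f x) (f y) (f z) ↔ RX x y z)

theorem PO.inj {S : Finset X} {f : X → ℕ} (h : PO lt R ltX RX S f) (hG : LtAx lt)
    (hX : LtAx ltX) : ∀ x ∈ S, ∀ y ∈ S, f x = f y → x = y := by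
  intro x hx y hy hxy
  by_contra hne
  rcases hX.total x y hne with k | k
  · have := (h.lt x hx y hy).2 k
    rw [hxy] at this
    exact hG.irrefl _ this
  · have := (h.lt y hy x hx).2 k
    rw [hxy] at this
    exact hG.irrefl _ this

theorem PO.ext [DecidableEq X] (hG : Generic lt R) (hX : LtAx ltX) (hX' : HTAx RX)
    {S : Finset X} {f : X → ℕ} (h : PO lt R ltX RX S f) (m : X) :
    ∃ g : X → ℕ, PO lt R ltX RX (insert m S) g ∧ ∀ x ∈ S, g x = f x := by
  by_cases hm : m ∈ S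
  · exact ⟨f, by rwa [Finset.insert_eq_of_mem hm], fun _ _ => rfl⟩
  obtain ⟨w, h1, h2, h3⟩ := ext_point hG hX' S f (h.inj hG.ltAx hX) h.R m hm
    (fun x => ltX x m) (fun x hx y hy hxm hyx => hX.trans _ _ _ ((h.lt y hy x hx).1 hyx) hxm)
  have hgm : Function.update f m w m = w := Function.update_self _ _ _
  have hgf : ∀ x ∈ S, Function.update f m w x = f x :=
    fun x hx => Function.update_of_ne (show x ≠ m from fun k => hm (k ▸ hx)) _ _
  refine ⟨Function.update f m w, ⟨?_, ?_⟩, hgf⟩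
  · intro x hx0 y hy0
    rcases Finset.mem_insert.1 hx0 with rfl | hx <;> rcases Finset.mem_insert.1 hy0 with rfl | hy
    · exact iff_of_false (hG.ltAx.irrefl _) (hX.irrefl _)
    · rw [hgm, hgf y hy]
      have hne : y ≠ x := fun k => hm (k ▸ hy)
      constructor
      · intro k
        rcases hX.total y x hne with k' | k'
        · exact absurd (hG.ltAx.trans _ _ _ k ((h2 y hy).2 k')) (hG.ltAx.irrefl _)
        · exact k'
      · intro k
        rcases hG.ltAx.total _ _ (h1 y hy) with k' | k'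
        · exact absurd (hX.trans _ _ _ k ((h2 y hy).1 k')) (hX.irrefl _)
        · exact k'
    · rw [hgm, hgf x hx]
      exact h2 x hx
    · rw [hgf x hx, hgf y hy]
      exact h.lt x hx y hy
  · intro x hx y hy z hz
    exact ext_R hG.ht hX' S f _ m hm w hgm hgf h.R h3 x (Finset.mem_insert.1 hx) y
      (Finset.mem_insert.1 hy) z (Finset.mem_insert.1 hz)

theorem PR.ext [DecidableEq X] (hG : Generic lt R) (hX' : HTAx RX)
    {S : Finset X} {f : X → ℕ} (h : PR R RX S f) (m : X) :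
    ∃ g : X → ℕ, PR R RX (insert m S) g ∧ ∀ x ∈ S, g x = f x := by
  by_cases hm : m ∈ S
  · exact ⟨f, by rwa [Finset.insert_eq_of_mem hm], fun _ _ => rfl⟩
  obtain ⟨w, h1, h2, h3⟩ := ext_point hG hX' S f h.inj h.R m hm
    (fun _ => False) (fun _ _ _ _ h _ => h)
  have hgm : Function.update f m w m = w := Function.update_self _ _ _
  have hgf : ∀ x ∈ S, Function.update f m w x = f x :=
    fun x hx => Function.update_of_ne (show x ≠ m from fun k => hm (k ▸ hx)) _ _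
  refine ⟨Function.update f m w, ⟨?_, ?_⟩, hgf⟩
  · intro x hx0 y hy0 hxy
    rcases Finset.mem_insert.1 hx0 with rfl | hx <;> rcases Finset.mem_insert.1 hy0 with rfl | hy
    · rfl
    · rw [hgm, hgf y hy] at hxy
      exact absurd hxy.symm (h1 y hy)
    · rw [hgm, hgf x hx] at hxy
      exact absurd hxy (h1 x hx)
    · rw [hgf x hx, hgf y hy] at hxy
      exact h.inj x hx y hy hxy
  · intro x hx y hy z hz
    exact ext_R hG.ht hX' S f _ m hm w hgm hgf h.R h3 x (Finset.mem_insert.1 hx) y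
      (Finset.mem_insert.1 hy) z (Finset.mem_insert.1 hz)

theorem exists_PO (hG : Generic lt R) (hX : LtAx ltX) (hX' : HTAx RX) (S : Finset X) :
    ∃ f : X → ℕ, PO lt R ltX RX S f := by
  classical
  induction S using Finset.induction_on with
  | empty => exact ⟨fun _ => 0, ⟨by simp, by simp⟩⟩
  | insert m S _ ih =>
    obtain ⟨f, hf⟩ := ih
    obtain ⟨g, hg, -⟩ := hf.ext hG hX hX' m
    exact ⟨g, hg⟩

theorem exists_PR (hG : Generic lt R) (hX' : HTAx RX) (S : Finset X) :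
    ∃ f : X → ℕ, PR R RX S f := by
  classical
  induction S using Finset.induction_on with
  | empty => exact ⟨fun _ => 0, ⟨by simp, by simp⟩⟩
  | insert m S _ ih =>
    obtain ⟨f, hf⟩ := ih
    obtain ⟨g, hg, -⟩ := hf.ext hG hX' m
    exact ⟨g, hg⟩

end

end Pool.Agent.Lib_helper38.HT
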