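import Pool.Agent.Lib_helper38.H4.Model

/-!
The age of the generic ordered structure has the Ramsey property; final theorem.
-/

open FirstOrder FirstOrder.Language CategoryTheory

namespace Pool.Agent.Lib_helper38.HT

/-- the linear order given by a strict linear order relation -/
@[reducible] noncomputable def linOrd {X : Type} (lt : X → X → Prop) (h : LtAx lt) :
    LinearOrder X where
  le := fun x y => x = y ∨ lt x y
  lt := lt
  le_refl := fun _ => Or.inl rfl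
  le_trans := by
    rintro x y z (rfl | h1) (rfl | h2)
    · exact Or.inl rfl
    · exact Or.inr h2
    · exact Or.inr h1
    · exact Or.inr (h.trans _ _ _ h1 h2)
  le_antisymm := by
    rintro x y (rfl | h1) (h2 | h2)
    · rfl
    · rfl
    · exact h2.symm
    · exact absurd (h.trans _ _ _ h1 h2) (h.irrefl _)
  le_total := by
    intro x y
    by_cases hxy : x = y
    · exact Or.inl (Or.inl hxy)
    · rcases h.total x y hxy with h1 | h1
      · exact Or.inl (Or.inr h1)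
      · exact Or.inr (Or.inr h1)
  lt_iff_le_not_ge := by
    intro x y
    constructor
    · intro h1
      refine ⟨Or.inr h1, ?_⟩
      rintro (rfl | h2)
      · exact h.irrefl _ h1
      · exact h.irrefl _ (h.trans _ _ _ h1 h2)
    · rintro ⟨rfl | h1, h2⟩
      · exact absurd (Or.inl rfl) h2
      · exact h1
  toDecidableLE := Classical.decRel _

/-- the ternary relation determined by its values on increasing triples -/
def RC {C : Type} [LinearOrder C] (s : C → C → C → Prop) (x y z : C) : Prop :=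
  (x < y ∧ y < z ∧ s x y z) ∨ (y < z ∧ z < x ∧ s y z x) ∨ (z < x ∧ x < y ∧ s z x y) ∨
    (x < z ∧ z < y ∧ ¬ s x z y) ∨ (z < y ∧ y < x ∧ ¬ s z y x) ∨ (y < x ∧ x < z ∧ ¬ s y x z)

section

variable {C : Type} [LinearOrder C] {s : C → C → C → Prop}

theorem RC_sorted {a b c : C} (h1 : a < b) (h2 : b < c) :
    (RC s a b c ↔ s a b c) ∧ (RC s b c a ↔ s a b c) ∧ (RC s c a b ↔ s a b c) ∧
    (RC s a c b ↔ ¬ s a b c) ∧ (RC s c b a ↔ ¬ s a b c) ∧ (RC s b a c ↔ ¬ s a b c) := by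
  have h3 := h1.trans h2
  have k1 := not_lt_of_gt h1
  have k2 := not_lt_of_gt h2
  have k3 := not_lt_of_gt h3
  simp [RC, h1, h2, h3, k1, k2, k3]

theorem RC_dist {x y z : C} (h : RC s x y z) : x ≠ y ∧ y ≠ z ∧ x ≠ z := by
  unfold RC at h
  refine ⟨?_, ?_, ?_⟩ <;> rintro rfl <;>
    rcases h with ⟨h1, h2, -⟩ | ⟨h1, h2, -⟩ | ⟨h1, h2, -⟩ | ⟨h1, h2, -⟩ | ⟨h1, h2, -⟩ |
      ⟨h1, h2, -⟩ <;>
    first
    | exact lt_irrefl _ h1
    | exact lt_irrefl _ h2
    | exact lt_irrefl _ (h1.trans h2)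
    | exact lt_irrefl _ (h2.trans h1)

theorem RC_cyc {x y z : C} (h : RC s x y z) : RC s y z x := by
  unfold RC at *
  tauto

theorem RC_anti {x y z : C} (h : RC s x y z) : ¬ RC s x z y := by
  obtain ⟨h1, h2, h3⟩ := RC_dist h
  intro h'
  rcases lt_or_gt_of_ne h1 with k1 | k1 <;> rcases lt_or_gt_of_ne h2 with k2 | k2 <;>
    rcases lt_or_gt_of_ne h3 with k3 | k3
  · have := RC_sorted (s := s) k1 k2; tauto
  · exact lt_asymm k3 (k1.trans k2)
  · have := RC_sorted (s := s) k3 k2; tauto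
  · have := RC_sorted (s := s) k3 k1; tauto
  · have := RC_sorted (s := s) k1 k3; tauto
  · have := RC_sorted (s := s) k2 k3; tauto
  · exact lt_asymm k3 (k2.trans k1)
  · have := RC_sorted (s := s) k2 k1; tauto

theorem RC_conn {x y z : C} (h1 : x ≠ y) (h2 : y ≠ z) (h3 : x ≠ z) :
    RC s x y z ∨ RC s x z y := by
  rcases lt_or_gt_of_ne h1 with k1 | k1 <;> rcases lt_or_gt_of_ne h2 with k2 | k2 <;>
    rcases lt_or_gt_of_ne h3 with k3 | k3
  · have := RC_sorted (s := s) k1 k2; tauto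
  · exact absurd k3 (lt_asymm (k1.trans k2))
  · have := RC_sorted (s := s) k3 k2; tauto
  · have := RC_sorted (s := s) k3 k1; tauto
  · have := RC_sorted (s := s) k1 k3; tauto
  · have := RC_sorted (s := s) k2 k3; tauto
  · exact absurd k3 (lt_asymm (k2.trans k1))
  · have := RC_sorted (s := s) k2 k1; tauto

/-- the pattern `H_4` -/
def Bad (s : C → C → C → Prop) (w x y z : C) : Prop :=
  RC s w x y ∧ RC s w y z ∧ RC s w z x ∧ RC s x z y

theorem Bad.rot {w x y z : C} (h : Bad s w x y z) : Bad s w y z x :=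
  ⟨h.2.1, h.2.2.1, h.1, RC_cyc (RC_cyc h.2.2.2)⟩

theorem Bad.swap {w x y z : C} (h : Bad s w x y z) : Bad s x w z y :=
  ⟨RC_cyc (RC_cyc h.2.2.1), h.2.2.2, RC_cyc h.1, h.2.1⟩

theorem Bad.false1 (hs : NonAlt s) {w x y z : C} (h1 : w < x) (h2 : x < y) (h3 : y < z) :
    ¬ Bad s w x y z := by
  rintro ⟨a, b, c, d⟩
  have A := (RC_sorted (s := s) h1 h2).1.1 a
  have B := (RC_sorted (s := s) (h1.trans h2) h3).1.1 b
  have C' := (RC_sorted (s := s) h1 (h2.trans h3)).2.2.2.1.1 c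
  have D := (RC_sorted (s := s) h2 h3).2.2.2.1.1 d
  apply hs w x y z h1 h2 h3
  unfold Alt
  tauto

theorem Bad.false2 (hs : NonAlt s) {w x y z : C} (h1 : w < x) (h2 : x < z) (h3 : z < y) :
    ¬ Bad s w x y z := by
  rintro ⟨a, b, c, d⟩
  have A := (RC_sorted (s := s) h1 (h2.trans h3)).1.1 a
  have B := (RC_sorted (s := s) (h1.trans h2) h3).2.2.2.1.1 b
  have C' := (RC_sorted (s := s) h1 h2).2.2.2.1.1 c
  have D := (RC_sorted (s := s) h2 h3).1.1 d
  apply hs w x z y h1 h2 h3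
  unfold Alt
  tauto

theorem Bad.false3 (hs : NonAlt s) {w x y z : C} (h1 : w < x) (h2 : w < y) (h3 : w < z)
    (hxy : x ≠ y) (hyz : y ≠ z) (hxz : x ≠ z) : ¬ Bad s w x y z := by
  intro h
  rcases lt_or_gt_of_ne hxy with k1 | k1 <;> rcases lt_or_gt_of_ne hyz with k2 | k2 <;>
    rcases lt_or_gt_of_ne hxz with k3 | k3
  · exact Bad.false1 hs h1 k1 k2 h
  · exact lt_asymm k3 (k1.trans k2)
  · exact Bad.false2 hs h1 k3 k2 h
  · exact Bad.false1 hs h3 k3 k1 h.rot.rot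
  · exact Bad.false2 hs h2 k1 k3 h.rot
  · exact Bad.false1 hs h2 k2 k3 h.rot
  · exact lt_asymm k3 (k2.trans k1)
  · exact Bad.false2 hs h3 k2 k1 h.rot.rot

theorem Bad.false (hs : NonAlt s) {w x y z : C} (hwx : w ≠ x) (hwy : w ≠ y) (hwz : w ≠ z)
    (hxy : x ≠ y) (hyz : y ≠ z) (hxz : x ≠ z) : ¬ Bad s w x y z := by
  intro h
  -- the smallest element
  by_cases m1 : w < x ∧ w < y ∧ w < z
  · exact Bad.false3 hs m1.1 m1.2.1 m1.2.2 hxy hyz hxz h
  by_cases m2 : x < w ∧ x < y ∧ x < z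
  · exact Bad.false3 hs m2.1 m2.2.2 m2.2.1 hwz (Ne.symm hyz) hwy h.swap
  by_cases m3 : y < w ∧ y < x ∧ y < z
  · exact Bad.false3 hs m3.1 m3.2.1 m3.2.2 hwx hxz hwz h.rot.swap
  by_cases m4 : z < w ∧ z < x ∧ z < y
  · exact Bad.false3 hs m4.1 m4.2.2 m4.2.1 hwy (Ne.symm hxy) hwx h.rot.rot.swap
  rcases lt_or_gt_of_ne hwx with k1 | k1 <;> rcases lt_or_gt_of_ne hwy with k2 | k2 <;>
    rcases lt_or_gt_of_ne hwz with k3 | k3 <;> rcases lt_or_gt_of_ne hxy with k4 | k4 <;>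
    rcases lt_or_gt_of_ne hyz with k5 | k5 <;> rcases lt_or_gt_of_ne hxz with k6 | k6 <;>
    first
    | exact m1 ⟨k1, k2, k3⟩
    | exact m2 ⟨k1, k4, k6⟩
    | exact m3 ⟨k2, k4, k5⟩
    | exact m4 ⟨k3, k6, k5⟩
    | order

theorem RC_clo (hs : NonAlt s) {w x y z : C} (h1 : RC s w x y) (h2 : RC s w y z)
    (h3 : RC s w z x) : RC s x y z := by
  obtain ⟨d1, d2, d3⟩ := RC_dist h1
  obtain ⟨-, d4, d5⟩ := RC_dist h2
  obtain ⟨-, d6, -⟩ := RC_dist h3
  by_contra hn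
  exact Bad.false hs d1 d3 d5 d2 d4 (Ne.symm d6)
    ⟨h1, h2, h3, (RC_conn d2 d4 (Ne.symm d6)).resolve_left hn⟩

theorem RC_ht (hs : NonAlt s) : HTAx (RC s) :=
  ⟨fun _ _ _ h => RC_dist h, fun _ _ _ h => RC_cyc h, fun _ _ _ h => RC_anti h,
    fun _ _ _ h1 h2 h3 => RC_conn h1 h2 h3, fun _ _ _ _ h1 h2 h3 => RC_clo hs h1 h2 h3⟩

end

theorem HTAx.neg {X : Type} {R : X → X → X → Prop} (h : HTAx R) {x y z : X} (h1 : x ≠ y)
    (h2 : y ≠ z) (h3 : x ≠ z) : R x z y ↔ ¬ R x y z :=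
  ⟨fun k k' => h.anti _ _ _ k' k, fun k => (h.conn x y z h1 h2 h3).resolve_left k⟩

/-- agreement on increasing triples implies agreement everywhere -/
theorem of_sorted {X Y : Type} [LinearOrder X] {RX : X → X → X → Prop}
    {RY : Y → Y → Y → Prop} (hX : HTAx RX) (hY : HTAx RY) (f : X → Y)
    (hf : Function.Injective f)
    (h : ∀ x y z, x < y → y < z → (RY (f x) (f y) (f z) ↔ RX x y z)) (x y z : X) :
    RY (f x) (f y) (f z) ↔ RX x y z := by
  by_cases hxy : x = y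
  · subst hxy
    exact iff_of_false (fun k => (hY.dist _ _ _ k).1 rfl) (fun k => (hX.dist _ _ _ k).1 rfl)
  by_cases hyz : y = z
  · subst hyz
    exact iff_of_false (fun k => (hY.dist _ _ _ k).2.1 rfl)
      (fun k => (hX.dist _ _ _ k).2.1 rfl)
  by_cases hxz : x = z
  · subst hxz
    exact iff_of_false (fun k => (hY.dist _ _ _ k).2.2 rfl)
      (fun k => (hX.dist _ _ _ k).2.2 rfl)
  have neg : ∀ a b c : X, a ≠ b → b ≠ c → a ≠ c → (RY (f a) (f b) (f c) ↔ RX a b c) →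
      (RY (f a) (f c) (f b) ↔ RX a c b) := by
    intro a b c h1 h2 h3 hk
    rw [hX.neg h1 h2 h3, hY.neg (fun k => h1 (hf k)) (fun k => h2 (hf k))
      (fun k => h3 (hf k)), hk]
  rcases lt_or_gt_of_ne hxy with k1 | k1 <;> rcases lt_or_gt_of_ne hyz with k2 | k2 <;>
    rcases lt_or_gt_of_ne hxz with k3 | k3
  · exact h x y z k1 k2
  · exact absurd k3 (lt_asymm (k1.trans k2))
  · exact neg x z y hxz (Ne.symm hyz) hxy (h x z y k3 k2)
  · rw [← hX.cyc_iff z, ← hY.cyc_iff (f z)]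
    exact h z x y k3 k1
  · rw [hX.cyc_iff x, hY.cyc_iff (f x)]
    exact neg y x z (Ne.symm hxy) hxz hyz (h y x z k1 k3)
  · rw [hX.cyc_iff x, hY.cyc_iff (f x)]
    exact h y z x k2 k3
  · exact absurd k3 (lt_asymm (k2.trans k1))
  · rw [← hX.cyc_iff z, ← hY.cyc_iff (f z)]
    exact neg z y x (Ne.symm hyz) (Ne.symm hxy) (Ne.symm hxz) (h z y x k2 k1)

end Pool.Agent.Lib_helper38.HT
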