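import Mathlib

/-!
The generic ordered `H_4`-free 3-hypertournament on `ℕ`.
-/

namespace Pool.Agent.Lib_helper38.HT

/-- Ordered `H_4`-free 3-hypertournaments on a subset `D` of a type. -/
structure OHT {X : Type} (D : Set X) (lt : X → X → Prop) (R : X → X → X → Prop) : Prop where
  irrefl : ∀ x ∈ D, ¬ lt x x
  trans : ∀ x ∈ D, ∀ y ∈ D, ∀ z ∈ D, lt x y → lt y z → lt x z
  total : ∀ x ∈ D, ∀ y ∈ D, x ≠ y → lt x y ∨ lt y x
  dist : ∀ x ∈ D, ∀ y ∈ D, ∀ z ∈ D, R x y z → x ≠ y ∧ y ≠ z ∧ x ≠ z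
  cyc : ∀ x ∈ D, ∀ y ∈ D, ∀ z ∈ D, R x y z → R y z x
  anti : ∀ x ∈ D, ∀ y ∈ D, ∀ z ∈ D, R x y z → ¬ R x z y
  conn : ∀ x ∈ D, ∀ y ∈ D, ∀ z ∈ D, x ≠ y → y ≠ z → x ≠ z → R x y z ∨ R x z y
  clo : ∀ w ∈ D, ∀ x ∈ D, ∀ y ∈ D, ∀ z ∈ D, R w x y → R w y z → R w z x → R x y z

/-- Valid one-point extension types over the finite set `F`: `L` is the set of elements below the
new point, `T` is the link of the new point. -/
structure Valid (lt : ℕ → ℕ → Prop) (R : ℕ → ℕ → ℕ → Prop) (F L : Finset ℕ)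
    (T : Finset (ℕ × ℕ)) : Prop where
  sub : L ⊆ F
  down : ∀ x ∈ L, ∀ y ∈ F, lt y x → y ∈ L
  irrefl : ∀ x ∈ F, (x, x) ∉ T
  anti : ∀ x ∈ F, ∀ y ∈ F, (x, y) ∈ T → (y, x) ∉ T
  conn : ∀ x ∈ F, ∀ y ∈ F, x ≠ y → (x, y) ∈ T ∨ (y, x) ∈ T
  tri : ∀ x ∈ F, ∀ y ∈ F, ∀ z ∈ F, (x, y) ∈ T → (y, z) ∈ T → (z, x) ∈ T → R x y z

/-- The point `w` realises the type. -/
def Real (lt : ℕ → ℕ → Prop) (R : ℕ → ℕ → ℕ → Prop) (F L : Finset ℕ)
    (T : Finset (ℕ × ℕ)) (w : ℕ) : Prop :=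
  w ∉ F ∧ (∀ x ∈ F, lt x w ↔ x ∈ L) ∧ ∀ x ∈ F, ∀ y ∈ F, (R w x y ↔ (x, y) ∈ T)

/-- Conditions: finite approximations. -/
structure Cond where
  dom : Finset ℕ
  lt : ℕ → ℕ → Prop
  R : ℕ → ℕ → ℕ → Prop
  ok : OHT (dom : Set ℕ) lt R

/-- extension of conditions -/
structure Cond.Le (p q : Cond) : Prop where
  dom : p.dom ⊆ q.dom
  lt : ∀ x ∈ p.dom, ∀ y ∈ p.dom, (p.lt x y ↔ q.lt x y)
  R : ∀ x ∈ p.dom, ∀ y ∈ p.dom, ∀ z ∈ p.dom, (p.R x y z ↔ q.R x y z)

instance : Preorder Cond where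
  le := Cond.Le
  le_refl p := ⟨Finset.Subset.refl _, fun _ _ _ _ => Iff.rfl, fun _ _ _ _ _ _ => Iff.rfl⟩
  le_trans p q r h1 h2 := ⟨h1.dom.trans h2.dom,
    fun x hx y hy => (h1.lt x hx y hy).trans (h2.lt x (h1.dom hx) y (h1.dom hy)),
    fun x hx y hy z hz => (h1.R x hx y hy z hz).trans
      (h2.R x (h1.dom hx) y (h1.dom hy) z (h1.dom hz))⟩

section ext

variable (p : Cond) (w : ℕ) (F L : Finset ℕ) (T : Finset (ℕ × ℕ))

/-- elements below the new point -/
def below (x : ℕ) : Prop := ∃ f ∈ L, x = f ∨ p.lt x f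

/-- link of the new point on the old domain -/
def link (x y : ℕ) : Prop :=
  x ∈ p.dom ∧ y ∈ p.dom ∧ ((x ∈ F ∧ y ∈ F ∧ (x, y) ∈ T) ∨ (x ∉ F ∧ y ∈ F) ∨
    (x ∉ F ∧ y ∉ F ∧ x < y))

/-- order after adding the new point -/
def newLt (x y : ℕ) : Prop :=
  (x ≠ w ∧ y ≠ w ∧ p.lt x y) ∨ (x ≠ w ∧ y = w ∧ below p L x) ∨
    (x = w ∧ y ≠ w ∧ ¬ below p L y)

/-- relation after adding the new point -/
def newR (x y z : ℕ) : Prop :=
  (x ≠ w ∧ y ≠ w ∧ z ≠ w ∧ p.R x y z) ∨ (x = w ∧ y ≠ w ∧ z ≠ w ∧ link p F T y z) ∨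
    (x ≠ w ∧ y = w ∧ z ≠ w ∧ link p F T z x) ∨ (x ≠ w ∧ y ≠ w ∧ z = w ∧ link p F T x y)

variable {p w F L T}

theorem link_irrefl (hV : Valid p.lt p.R F L T) (x : ℕ) : ¬ link p F T x x := by
  rintro ⟨-, -, ⟨h1, -, h2⟩ | ⟨h1, h2⟩ | ⟨-, -, h⟩⟩
  · exact hV.irrefl x h1 h2
  · exact h1 h2
  · exact lt_irrefl _ h

theorem link_anti (hV : Valid p.lt p.R F L T) {x y : ℕ} (h : link p F T x y) :
    ¬ link p F T y x := by
  rcases h with ⟨-, -, ⟨h1, h2, h3⟩ | ⟨h1, h2⟩ | ⟨h1, h2, h3⟩⟩ <;>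
    rintro ⟨-, -, ⟨k1, k2, k3⟩ | ⟨k1, k2⟩ | ⟨k1, k2, k3⟩⟩
  · exact hV.anti x h1 y h2 h3 k3
  · exact k1 h2
  · exact k1 h2
  · exact h1 k2
  · exact k1 h2
  · exact k1 h2
  · exact h2 k1
  · exact h1 k2
  · exact lt_asymm h3 k3

theorem link_conn (hV : Valid p.lt p.R F L T) {x y : ℕ} (hx : x ∈ p.dom) (hy : y ∈ p.dom)
    (hxy : x ≠ y) : link p F T x y ∨ link p F T y x := by
  unfold link
  by_cases h1 : x ∈ F <;> by_cases h2 : y ∈ F
  · rcases hV.conn x h1 y h2 hxy with h | h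
    · exact Or.inl ⟨hx, hy, Or.inl ⟨h1, h2, h⟩⟩
    · exact Or.inr ⟨hy, hx, Or.inl ⟨h2, h1, h⟩⟩
  · exact Or.inr ⟨hy, hx, Or.inr (Or.inl ⟨h2, h1⟩)⟩
  · exact Or.inl ⟨hx, hy, Or.inr (Or.inl ⟨h1, h2⟩)⟩
  · rcases lt_or_gt_of_ne hxy with h | h
    · exact Or.inl ⟨hx, hy, Or.inr (Or.inr ⟨h1, h2, h⟩)⟩
    · exact Or.inr ⟨hy, hx, Or.inr (Or.inr ⟨h2, h1, h⟩)⟩

theorem link_tri (hV : Valid p.lt p.R F L T) {x y z : ℕ} (h1 : link p F T x y)
    (h2 : link p F T y z) (h3 : link p F T z x) : p.R x y z := by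
  rcases h1 with ⟨-, -, ⟨a1, a2, a3⟩ | ⟨a1, a2⟩ | ⟨a1, a2, a3⟩⟩ <;>
  rcases h2 with ⟨-, -, ⟨b1, b2, b3⟩ | ⟨b1, b2⟩ | ⟨b1, b2, b3⟩⟩ <;>
  rcases h3 with ⟨-, -, ⟨c1, c2, c3⟩ | ⟨c1, c2⟩ | ⟨c1, c2, c3⟩⟩ <;>
  first
  | exact hV.tri x a1 y a2 z b2 a3 b3 c3
  | (exfalso; omega)
  | (exfalso; tauto)

/-- One-point extension of conditions. -/
theorem ext_cond (hF : F ⊆ p.dom) (hw : w ∉ p.dom) (hV : Valid p.lt p.R F L T) :
    ∃ q : Cond, p ≤ q ∧ q.dom = insert w p.dom ∧ Real q.lt q.R F L T w := by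
  have hne : ∀ {x}, x ∈ p.dom → x ≠ w := fun hx h => hw (h ▸ hx)
  have hL : ∀ {x}, x ∈ L → x ∈ p.dom := fun hx => hF (hV.sub hx)
  have hbelow : ∀ x ∈ p.dom, ∀ y ∈ p.dom, p.lt x y → below p L y → below p L x := by
    rintro x hx y hy hxy ⟨f, hf, rfl | hyf⟩
    · exact ⟨y, hf, Or.inr hxy⟩
    · exact ⟨f, hf, Or.inr (p.ok.trans x hx y hy f (hL hf) hxy hyf)⟩
  have hok : OHT ((insert w p.dom : Finset ℕ) : Set ℕ) (newLt p w L) (newR p w F T) := by
    have hmem : ∀ {x}, x ∈ ((insert w p.dom : Finset ℕ) : Set ℕ) → x = w ∨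
        (x ≠ w ∧ x ∈ p.dom) := by
      intro x hx
      rw [Finset.mem_coe, Finset.mem_insert] at hx
      rcases hx with h | h
      · exact Or.inl h
      · exact Or.inr ⟨hne h, h⟩
    refine ⟨?_, ?_, ?_, ?_, ?_, ?_, ?_, ?_⟩
    · intro x hx h
      unfold newLt at h
      rcases h with ⟨h1, -, h⟩ | ⟨h1, h2, -⟩ | ⟨h1, h2, -⟩
      · rcases hmem hx with h' | ⟨-, h'⟩
        · exact h1 h'
        · exact p.ok.irrefl x h' h
      · exact h1 h2
      · exact h2 h1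
    · intro x hx y hy z hz hxy hyz
      unfold newLt at *
      rcases hmem hx with rfl | ⟨hx1, hx2⟩ <;> rcases hmem hy with rfl | ⟨hy1, hy2⟩ <;>
        rcases hmem hz with rfl | ⟨hz1, hz2⟩ <;>
        simp only [ne_eq, not_true, false_and, true_and, or_false, false_or, and_true,
          not_false_iff, *] at hxy hyz ⊢
      · exact hxy hyz
      · intro h
        exact hxy (hbelow y hy2 z hz2 hyz h)
      · rcases p.ok.total x hx2 z hz2 (by
          rintro rfl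
          exact hyz hxy) with h | h
        · exact h
        · exact absurd (hbelow z hz2 x hx2 h hxy) hyz
      · exact hbelow x hx2 y hy2 hxy hyz
      · exact p.ok.trans x hx2 y hy2 z hz2 hxy hyz
    · intro x hx y hy hxy
      unfold newLt
      rcases hmem hx with rfl | ⟨hx1, hx2⟩ <;> rcases hmem hy with rfl | ⟨hy1, hy2⟩
      · exact absurd rfl hxy
      · simp only [ne_eq, not_true, false_and, true_and, or_false, false_or, and_true,
          not_false_iff, *]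
        tauto
      · simp only [ne_eq, not_true, false_and, true_and, or_false, false_or, and_true,
          not_false_iff, *]
        tauto
      · rcases p.ok.total x hx2 y hy2 hxy with h | h
        · exact Or.inl (Or.inl ⟨hx1, hy1, h⟩)
        · exact Or.inr (Or.inl ⟨hy1, hx1, h⟩)
    · intro x hx y hy z hz h
      unfold newR at h
      rcases h with ⟨h1, h2, h3, h⟩ | ⟨h1, h2, h3, h⟩ | ⟨h1, h2, h3, h⟩ | ⟨h1, h2, h3, h⟩
      · rcases hmem hx with h' | ⟨-, hx'⟩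
        · exact absurd h' h1
        rcases hmem hy with h' | ⟨-, hy'⟩
        · exact absurd h' h2
        rcases hmem hz with h' | ⟨-, hz'⟩
        · exact absurd h' h3
        exact p.ok.dist x hx' y hy' z hz' h
      · subst h1
        refine ⟨fun h' => h2 h'.symm, fun h' => ?_, fun h' => h3 h'.symm⟩
        subst h'
        exact link_irrefl hV _ h
      · subst h2
        refine ⟨h1, fun h' => h3 h'.symm, fun h' => ?_⟩
        subst h'
        exact link_irrefl hV _ h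
      · subst h3
        refine ⟨fun h' => ?_, h2, h1⟩
        subst h'
        exact link_irrefl hV _ h
    · intro x hx y hy z hz h
      unfold newR at h ⊢
      rcases h with ⟨h1, h2, h3, h⟩ | ⟨h1, h2, h3, h⟩ | ⟨h1, h2, h3, h⟩ | ⟨h1, h2, h3, h⟩
      · rcases hmem hx with h' | ⟨-, hx'⟩
        · exact absurd h' h1
        rcases hmem hy with h' | ⟨-, hy'⟩
        · exact absurd h' h2
        rcases hmem hz with h' | ⟨-, hz'⟩
        · exact absurd h' h3
        exact Or.inl ⟨h2, h3, h1, p.ok.cyc x hx' y hy' z hz' h⟩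
      · exact Or.inr (Or.inr (Or.inr ⟨h2, h3, h1, h⟩))
      · exact Or.inr (Or.inl ⟨h2, h3, h1, h⟩)
      · exact Or.inr (Or.inr (Or.inl ⟨h2, h3, h1, h⟩))
    · intro x hx y hy z hz h h'
      unfold newR at h h'
      rcases h with ⟨h1, h2, h3, h⟩ | ⟨h1, h2, h3, h⟩ | ⟨h1, h2, h3, h⟩ | ⟨h1, h2, h3, h⟩ <;>
      rcases h' with ⟨k1, k2, k3, k⟩ | ⟨k1, k2, k3, k⟩ | ⟨k1, k2, k3, k⟩ | ⟨k1, k2, k3, k⟩ <;>
      first
      | (exfalso; tauto)
      | exact link_anti hV h k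
      | skip
      · rcases hmem hx with h' | ⟨-, hx'⟩
        · exact absurd h' h1
        rcases hmem hy with h' | ⟨-, hy'⟩
        · exact absurd h' h2
        rcases hmem hz with h' | ⟨-, hz'⟩
        · exact absurd h' h3
        exact p.ok.anti x hx' y hy' z hz' h k
    · intro x hx y hy z hz hxy hyz hxz
      unfold newR
      rcases hmem hx with rfl | ⟨hx1, hx2⟩ <;> rcases hmem hy with rfl | ⟨hy1, hy2⟩ <;>
        rcases hmem hz with rfl | ⟨hz1, hz2⟩
      · exact absurd rfl hxy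
      · exact absurd rfl hxy
      · exact absurd rfl hxz
      · rcases link_conn hV hy2 hz2 hyz with h | h
        · exact Or.inl (Or.inr (Or.inl ⟨rfl, hy1, hz1, h⟩))
        · exact Or.inr (Or.inr (Or.inl ⟨rfl, hz1, hy1, h⟩))
      · exact absurd rfl hyz
      · rcases link_conn hV hz2 hx2 (Ne.symm hxz) with h | h
        · exact Or.inl (Or.inr (Or.inr (Or.inl ⟨hx1, rfl, hz1, h⟩)))
        · exact Or.inr (Or.inr (Or.inr (Or.inr ⟨hx1, hz1, rfl, h⟩)))
      · rcases link_conn hV hx2 hy2 hxy with h | h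
        · exact Or.inl (Or.inr (Or.inr (Or.inr ⟨hx1, hy1, rfl, h⟩)))
        · exact Or.inr (Or.inr (Or.inr (Or.inl ⟨hx1, rfl, hy1, h⟩)))
      · rcases p.ok.conn x hx2 y hy2 z hz2 hxy hyz hxz with h | h
        · exact Or.inl (Or.inl ⟨hx1, hy1, hz1, h⟩)
        · exact Or.inr (Or.inl ⟨hx1, hz1, hy1, h⟩)
    · intro v hv x hx y hy z hz h1 h2 h3
      unfold newR at h1 h2 h3 ⊢
      rcases hmem hv with rfl | ⟨hv1, hv2⟩
      · -- the new point is the apex
        simp only [ne_eq, not_true, false_and, true_and, or_false, false_or] at h1 h2 h3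
        obtain ⟨hx1, hy1, h1⟩ := h1
        obtain ⟨-, hz1, h2⟩ := h2
        exact Or.inl ⟨hx1, hy1, hz1, link_tri hV h1 h2 h3.2.2⟩
      · rcases hmem hx with rfl | ⟨hx1, hx2⟩
        · simp only [ne_eq, not_true, false_and, true_and, or_false, false_or,
            not_false_iff, hv1, and_false, and_true] at h1 h2 h3 ⊢
          rcases hmem hy with rfl | ⟨hy1, hy2⟩
          · exact absurd rfl h1.1
          rcases hmem hz with rfl | ⟨hz1, hz2⟩
          · exact absurd rfl h3.1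
          simp only [hy1, hz1, not_false_iff, true_and, false_and, or_false] at h1 h2 h3 ⊢
          -- h1 : link y v, h3 : link v z, h2 : R v y z
          by_contra hcon
          have hyz : y ≠ z := (p.ok.dist v hv2 y hy2 z hz2 h2).2.1
          have hzy : link p F T z y := (link_conn hV hy2 hz2 hyz).resolve_left hcon
          have := link_tri hV h3 hzy h1
          exact p.ok.anti v hv2 y hy2 z hz2 h2 this
        · rcases hmem hy with rfl | ⟨hy1, hy2⟩
          · simp only [ne_eq, not_true, false_and, true_and, or_false, false_or,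
              not_false_iff, hv1, hx1, and_false, and_true] at h1 h2 h3 ⊢
            rcases hmem hz with rfl | ⟨hz1, hz2⟩
            · exact absurd rfl h2.1
            simp only [hz1, not_false_iff, true_and, false_and, or_false] at h1 h2 h3 ⊢
            -- h1 : link v x, h2 : link z v, h3 : R v z x
            by_contra hcon
            have hxz : z ≠ x := (p.ok.dist v hv2 z hz2 x hx2 h3).2.1
            have hzx : link p F T x z := (link_conn hV hz2 hx2 hxz).resolve_left hcon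
            have := link_tri hV h1 hzx h2
            exact p.ok.anti v hv2 z hz2 x hx2 h3 this
          · rcases hmem hz with rfl | ⟨hz1, hz2⟩
            · simp only [ne_eq, not_true, false_and, true_and, or_false, false_or,
                not_false_iff, hv1, hx1, hy1, and_false, and_true] at h1 h2 h3 ⊢
              -- h1 : R v x y, h2 : link v y, h3 : link x v
              by_contra hcon
              have hxy : x ≠ y := (p.ok.dist v hv2 x hx2 y hy2 h1).2.1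
              have hyx : link p F T y x := (link_conn hV hx2 hy2 hxy).resolve_left hcon
              have := link_tri hV h2 hyx h3
              exact p.ok.anti v hv2 x hx2 y hy2 h1 this
            · simp only [ne_eq, not_true, false_and, true_and, or_false, false_or,
                not_false_iff, hv1, hx1, hy1, hz1, and_false, and_true] at h1 h2 h3 ⊢
              exact p.ok.clo v hv2 x hx2 y hy2 z hz2 h1 h2 h3
  refine ⟨⟨insert w p.dom, newLt p w L, newR p w F T, hok⟩, ⟨?_, ?_, ?_⟩, rfl, ?_, ?_, ?_⟩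
  · exact Finset.subset_insert _ _
  · intro x hx y hy
    have h1 := hne hx
    have h2 := hne hy
    simp only [newLt, ne_eq, h1, h2, not_false_iff, true_and, false_and, or_false]
  · intro x hx y hy z hz
    have h1 := hne hx
    have h2 := hne hy
    have h3 := hne hz
    simp only [newR, ne_eq, h1, h2, h3, not_false_iff, true_and, false_and, or_false]
  · exact fun h => hw (hF h)
  · intro x hx
    have h1 := hne (hF hx)
    simp only [newLt, ne_eq, h1, not_false_iff, true_and, false_and, or_false, not_true,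
      false_or]
    constructor
    · rintro ⟨f, hf, rfl | h⟩
      · exact hf
      · exact hV.down f hf x hx h
    · intro h
      exact ⟨x, h, Or.inl rfl⟩
  · intro x hx y hy
    have h1 := hne (hF hx)
    have h2 := hne (hF hy)
    simp only [newR, ne_eq, h1, h2, not_false_iff, true_and, false_and, or_false, not_true,
      false_or, link, hx, hy, hF hx, hF hy]

end ext

/-- Conditions can be extended to contain any finite set. -/
theorem cover (F : Finset ℕ) : ∀ p : Cond, ∃ q : Cond, p ≤ q ∧ F ⊆ q.dom := by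
  induction F using Finset.induction_on with
  | empty => exact fun p => ⟨p, le_refl p, by simp⟩
  | insert x F hx ih =>
    intro p
    obtain ⟨q, hq, hqF⟩ := ih p
    by_cases hxq : x ∈ q.dom
    · exact ⟨q, hq, Finset.insert_subset hxq hqF⟩
    · obtain ⟨r, hr, hrd, -⟩ := ext_cond (p := q) (w := x) (F := ∅) (L := ∅) (T := ∅)
        (by simp) hxq ⟨by simp, by simp, by simp, by simp, by simp, by simp⟩
      refine ⟨r, hq.trans hr, ?_⟩
      rw [hrd]
      exact Finset.insert_subset_insert _ hqF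

/-- The tasks. -/
def task (t : Finset ℕ × Finset ℕ × Finset (ℕ × ℕ)) : Order.Cofinal Cond where
  carrier := {p | t.1 ⊆ p.dom ∧ (Valid p.lt p.R t.1 t.2.1 t.2.2 →
    ∃ w ∈ p.dom, Real p.lt p.R t.1 t.2.1 t.2.2 w)}
  isCofinal := by
    intro p
    obtain ⟨F, L, T⟩ := t
    obtain ⟨q, hq, hqF⟩ := cover F p
    by_cases hV : Valid q.lt q.R F L T
    · obtain ⟨w, hw⟩ := Infinite.exists_notMem_finset q.dom
      obtain ⟨r, hr, hrd, hR⟩ := ext_cond hqF hw hV
      refine ⟨r, ⟨hqF.trans hr.dom, fun _ => ⟨w, ?_, hR⟩⟩, hq.trans hr⟩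
      rw [hrd]
      exact Finset.mem_insert_self _ _
    · exact ⟨q, ⟨hqF, fun h => absurd h hV⟩, hq⟩

/-- Existence of the generic structure. -/
theorem exists_generic : ∃ (lt : ℕ → ℕ → Prop) (R : ℕ → ℕ → ℕ → Prop),
    OHT (Set.univ : Set ℕ) lt R ∧
    ∀ (F L : Finset ℕ) (T : Finset (ℕ × ℕ)), Valid lt R F L T → ∃ w, Real lt R F L T w := by
  let p0 : Cond := ⟨∅, fun _ _ => False, fun _ _ _ => False,
    ⟨by simp, by simp, by simp, by simp, by simp, by simp, by simp, by simp⟩⟩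
  let G := Order.idealOfCofinals p0 task
  let lt : ℕ → ℕ → Prop := fun x y => ∃ p ∈ G, x ∈ p.dom ∧ y ∈ p.dom ∧ p.lt x y
  let R : ℕ → ℕ → ℕ → Prop := fun x y z =>
    ∃ p ∈ G, x ∈ p.dom ∧ y ∈ p.dom ∧ z ∈ p.dom ∧ p.R x y z
  have hlt : ∀ p ∈ G, ∀ x ∈ p.dom, ∀ y ∈ p.dom, (lt x y ↔ p.lt x y) := by
    intro p hp x hx y hy
    constructor
    · rintro ⟨q, hq, hxq, hyq, h⟩
      obtain ⟨r, -, hpr, hqr⟩ := G.directed p hp q hq
      exact (hpr.lt x hx y hy).2 ((hqr.lt x hxq y hyq).1 h)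
    · intro h
      exact ⟨p, hp, hx, hy, h⟩
  have hR : ∀ p ∈ G, ∀ x ∈ p.dom, ∀ y ∈ p.dom, ∀ z ∈ p.dom, (R x y z ↔ p.R x y z) := by
    intro p hp x hx y hy z hz
    constructor
    · rintro ⟨q, hq, hxq, hyq, hzq, h⟩
      obtain ⟨r, -, hpr, hqr⟩ := G.directed p hp q hq
      exact (hpr.R x hx y hy z hz).2 ((hqr.R x hxq y hyq z hzq).1 h)
    · intro h
      exact ⟨p, hp, hx, hy, hz, h⟩
  have hloc : ∀ F : Finset ℕ, ∃ p ∈ G, F ⊆ p.dom := by
    intro F
    obtain ⟨p, hp, hpG⟩ := Order.cofinal_meets_idealOfCofinals p0 task (F, ∅, ∅)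
    exact ⟨p, hpG, hp.1⟩
  refine ⟨lt, R, ?_, ?_⟩
  · have h4 : ∀ w x y z : ℕ, ∃ p ∈ G, w ∈ p.dom ∧ x ∈ p.dom ∧ y ∈ p.dom ∧ z ∈ p.dom := by
      intro w x y z
      obtain ⟨p, hp, h⟩ := hloc {w, x, y, z}
      exact ⟨p, hp, h (by simp), h (by simp), h (by simp), h (by simp)⟩
    refine ⟨?_, ?_, ?_, ?_, ?_, ?_, ?_, ?_⟩
    · intro x _ h
      obtain ⟨p, hp, hx, -⟩ := h4 x x x x
      rw [hlt p hp x hx x hx] at h
      exact p.ok.irrefl x hx h
    · intro x _ y _ z _ h1 h2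
      obtain ⟨p, hp, hx, hy, hz, -⟩ := h4 x y z z
      rw [hlt p hp x hx y hy] at h1
      rw [hlt p hp y hy z hz] at h2
      rw [hlt p hp x hx z hz]
      exact p.ok.trans x hx y hy z hz h1 h2
    · intro x _ y _ hxy
      obtain ⟨p, hp, hx, hy, -⟩ := h4 x y y y
      rw [hlt p hp x hx y hy, hlt p hp y hy x hx]
      exact p.ok.total x hx y hy hxy
    · intro x _ y _ z _ h
      obtain ⟨p, hp, hx, hy, hz, -⟩ := h4 x y z z
      rw [hR p hp x hx y hy z hz] at h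
      exact p.ok.dist x hx y hy z hz h
    · intro x _ y _ z _ h
      obtain ⟨p, hp, hx, hy, hz, -⟩ := h4 x y z z
      rw [hR p hp x hx y hy z hz] at h
      rw [hR p hp y hy z hz x hx]
      exact p.ok.cyc x hx y hy z hz h
    · intro x _ y _ z _ h h'
      obtain ⟨p, hp, hx, hy, hz, -⟩ := h4 x y z z
      rw [hR p hp x hx y hy z hz] at h
      rw [hR p hp x hx z hz y hy] at h'
      exact p.ok.anti x hx y hy z hz h h'
    · intro x _ y _ z _ h1 h2 h3
      obtain ⟨p, hp, hx, hy, hz, -⟩ := h4 x y z z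
      rw [hR p hp x hx y hy z hz, hR p hp x hx z hz y hy]
      exact p.ok.conn x hx y hy z hz h1 h2 h3
    · intro w _ x _ y _ z _ h1 h2 h3
      obtain ⟨p, hp, hw, hx, hy, hz⟩ := h4 w x y z
      rw [hR p hp w hw x hx y hy] at h1
      rw [hR p hp w hw y hy z hz] at h2
      rw [hR p hp w hw z hz x hx] at h3
      rw [hR p hp x hx y hy z hz]
      exact p.ok.clo w hw x hx y hy z hz h1 h2 h3
  · intro F L T hV
    obtain ⟨p, ⟨hpF, hp⟩, hpG⟩ := Order.cofinal_meets_idealOfCofinals p0 task (F, L, T)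
    obtain ⟨w, hw, h1, h2, h3⟩ := hp ⟨hV.sub,
      fun x hx y hy h => hV.down x hx y hy
        ((hlt p hpG y (hpF hy) x (hpF (hV.sub hx))).2 h),
      hV.irrefl, hV.anti, hV.conn,
      fun x hx y hy z hz k1 k2 k3 => (hR p hpG x (hpF hx) y (hpF hy) z (hpF hz)).1
        (hV.tri x hx y hy z hz k1 k2 k3)⟩
    refine ⟨w, h1, ?_, ?_⟩
    · intro x hx
      rw [hlt p hpG x (hpF hx) w hw]
      exact h2 x hx
    · intro x hx y hy
      rw [hR p hpG w hw x (hpF hx) y (hpF hy)]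
      exact h3 x hx y hy

end Pool.Agent.Lib_helper38.HT
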