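import Pool.Agent.Lib_helper38.H4.Defs
import Pool.Agent.Lib_helper38.H4.Generic
import Pool.Agent.Lib_helper38.H4.Core

/-!
The ordered language and basic lemmas on structures.
-/

open FirstOrder FirstOrder.Language CategoryTheory

namespace Pool.Agent.Lib_helper38.HT

/-- Symbols of the ordered language. -/
inductive OrdSymb : ℕ → Type
  | R : OrdSymb 3
  | lt : OrdSymb 2

/-- The language `{R, <}`. -/
def LO : FirstOrder.Language.{0, 0} := ⟨fun _ => Empty, OrdSymb⟩

instance : LO.IsRelational := fun _ => inferInstanceAs (IsEmpty Empty)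

/-- The inclusion of languages. -/
def incl : LR →ᴸ LO where
  onFunction := fun {_} f => f
  onRelation := fun {n} r => match n, r with
    | _, TernSymb.R => OrdSymb.R

theorem incl_injective : incl.Injective where
  onFunction := fun {n} f => Empty.elim f
  onRelation := fun {n} r s _ => by
    cases r
    cases s
    rfl

instance : Finite (Σ n, LO.Relations n) := by
  let f : Bool → (Σ n, LO.Relations n) := fun b => if b then ⟨3, OrdSymb.R⟩ else ⟨2, OrdSymb.lt⟩
  apply Finite.of_surjective f
  rintro ⟨n, r⟩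
  cases r
  · exact ⟨true, rfl⟩
  · exact ⟨false, rfl⟩

def RO {M : Type} [LO.Structure M] (x y z : M) : Prop :=
  Structure.RelMap (L := LO) OrdSymb.R ![x, y, z]

def ltO {M : Type} [LO.Structure M] (x y : M) : Prop :=
  Structure.RelMap (L := LO) OrdSymb.lt ![x, y]

@[reducible] def mkLO {M : Type} (lt : M → M → Prop) (r : M → M → M → Prop) :
    LO.Structure M where
  funMap := fun f => Empty.elim f
  RelMap := fun {n} s => match n, s with
    | _, OrdSymb.R => fun v => r (v 0) (v 1) (v 2)
    | _, OrdSymb.lt => fun v => lt (v 0) (v 1)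

theorem vec3 {M : Type} (v : Fin 3 → M) : v = ![v 0, v 1, v 2] := by
  funext i
  fin_cases i <;> rfl

theorem vec2 {M : Type} (v : Fin 2 → M) : v = ![v 0, v 1] := by
  funext i
  fin_cases i <;> rfl

theorem relMap_R {M : Type} [LO.Structure M] (v : Fin 3 → M) :
    Structure.RelMap (L := LO) OrdSymb.R v ↔ RO (v 0) (v 1) (v 2) := by
  unfold RO
  rw [← vec3 v]

theorem relMap_lt {M : Type} [LO.Structure M] (v : Fin 2 → M) :
    Structure.RelMap (L := LO) OrdSymb.lt v ↔ ltO (v 0) (v 1) := by
  unfold ltO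
  rw [← vec2 v]

theorem relMap_RR {M : Type} [LR.Structure M] (v : Fin 3 → M) :
    Structure.RelMap (L := LR) TernSymb.R v ↔ RelR (v 0) (v 1) (v 2) := by
  unfold RelR
  rw [← vec3 v]

/-- Embeddings of `{R, <}`-structures. -/
def mkEmbO {M N : Type} [LO.Structure M] [LO.Structure N] (f : M → N)
    (hf : Function.Injective f) (hlt : ∀ x y, ltO (f x) (f y) ↔ ltO x y)
    (hR : ∀ x y z, RO (f x) (f y) (f z) ↔ RO x y z) : M ↪[LO] N where
  toFun := f
  inj' := hf
  map_fun' := fun {n} g => Empty.elim g
  map_rel' := fun {n} r => by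
    intro v
    cases r
    · exact (relMap_R (f ∘ v)).trans ((hR _ _ _).trans (relMap_R v).symm)
    · exact (relMap_lt (f ∘ v)).trans ((hlt _ _).trans (relMap_lt v).symm)

/-- Embeddings of `{R}`-structures. -/
def mkEmbR {M N : Type} [LR.Structure M] [LR.Structure N] (f : M → N)
    (hf : Function.Injective f)
    (hR : ∀ x y z, RelR (f x) (f y) (f z) ↔ RelR x y z) : M ↪[LR] N where
  toFun := f
  inj' := hf
  map_fun' := fun {n} g => Empty.elim g
  map_rel' := fun {n} r => by
    intro v
    cases r
    exact (relMap_RR (f ∘ v)).trans ((hR _ _ _).trans (relMap_RR v).symm)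

theorem emb_ltO {M N : Type} [LO.Structure M] [LO.Structure N] (f : M ↪[LO] N) (x y : M) :
    ltO (f x) (f y) ↔ ltO x y := by
  have h := f.map_rel (OrdSymb.lt : LO.Relations 2) ![x, y]
  rw [show (OrdSymb.lt : LO.Relations 2) = (OrdSymb.lt : OrdSymb 2) from rfl] at h
  exact (relMap_lt (f ∘ ![x, y])).symm.trans h

theorem emb_RO {M N : Type} [LO.Structure M] [LO.Structure N] (f : M ↪[LO] N) (x y z : M) :
    RO (f x) (f y) (f z) ↔ RO x y z := by
  have h := f.map_rel (OrdSymb.R : LO.Relations 3) ![x, y, z]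
  exact (relMap_R (f ∘ ![x, y, z])).symm.trans h

theorem emb_RelR {M N : Type} [LR.Structure M] [LR.Structure N] (f : M ↪[LR] N) (x y z : M) :
    RelR (f x) (f y) (f z) ↔ RelR x y z := by
  have h := f.map_rel (TernSymb.R : LR.Relations 3) ![x, y, z]
  exact (relMap_RR (f ∘ ![x, y, z])).symm.trans h

end Pool.Agent.Lib_helper38.HT
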