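import Pool.Agent.Lib_helper38.H4.Final

/-!
Main theorem.
-/

open FirstOrder FirstOrder.Language CategoryTheory

namespace Pool.Agent.Lib_helper38.HT

variable {lt : ℕ → ℕ → Prop} {R : ℕ → ℕ → ℕ → Prop}

theorem nonAlt_of_ht {B : Type} [LinearOrder B] {r : B → B → B → Prop} (h : HTAx r) :
    NonAlt r := by
  intro w x y z h1 h2 h3 hA
  unfold Alt at hA
  obtain ⟨a1, a2, a3⟩ := hA
  have hwx := ne_of_lt h1
  have hxy := ne_of_lt h2
  have hyz := ne_of_lt h3
  have hwy := ne_of_lt (h1.trans h2)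
  have hxz := ne_of_lt (h2.trans h3)
  have hwz := ne_of_lt (h1.trans (h2.trans h3))
  by_cases hp : r w x y
  · -- `+ - + -`
    have q1 : r w y z := a1.1 hp
    have q2 : ¬ r w x z := a3.1 hp
    have q3 : ¬ r x y z := fun k => q2 (a2.2 k)
    have q4 : r w z x := (h.conn w x z hwx hxz hwz).resolve_left q2
    exact q3 (h.clo w x y z hp q1 q4)
  · -- `- + - +`
    have q1 : ¬ r w y z := fun k => hp (a1.2 k)
    have q2 : r w x z := by
      by_contra k
      exact hp (a3.2 k)
    have q3 : r x y z := a2.1 q2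
    have q4 : r w z y := (h.conn w y z hwy hyz hwz).resolve_left q1
    have q5 : r w y x := (h.conn w x y hwx hxy hwy).resolve_left hp
    exact h.anti _ _ _ q3 (h.clo w x z y q2 q4 q5)

theorem ramsey_age (hG : Generic lt R) :
    RamseyProperty (@FirstOrder.Language.age LO ℕ (mkLO lt R)) := by
  classical
  intro A hA B hB k hk
  obtain ⟨hAfin, hAlt, hAht⟩ := (age_O hG A).1 hA
  obtain ⟨hBfin, hBlt, hBht⟩ := (age_O hG B).1 hB
  let _ : LinearOrder A := linOrd ltO hAlt
  let _ : LinearOrder B := linOrd ltO hBlt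
  have : Nonempty (Fin k) := ⟨⟨0, hk⟩⟩
  obtain ⟨C, instC, hCfin, s, hs, hC⟩ := core (κ := Fin k) (RO : A → A → A → Prop)
    (RO : B → B → B → Prop) (nonAlt_of_ht hBht)
  let instLO : LO.Structure C := mkLO (fun x y => x < y) (RC s)
  have hCht := RC_ht hs
  refine ⟨Bundled.mk C instLO, (age_O hG (Bundled.mk C instLO)).2
    ⟨hCfin, ⟨fun x => lt_irrefl x, fun x y z => lt_trans, fun x y h => lt_or_gt_of_ne h⟩,
      hCht⟩, ?_⟩
  intro χ
  let c0 : Fin k := ⟨0, hk⟩
  let χ' : (A → C) → Fin k := fun α =>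
    if h : ∃ A' : {A' : LO.Substructure C // Nonempty (A ≃[LO] A')},
      (A'.1 : Set C) = Set.range α then χ h.choose else c0
  have hχ' : ∀ (α : A → C) (A' : {A' : LO.Substructure C // Nonempty (A ≃[LO] A')}),
      (A'.1 : Set C) = Set.range α → χ' α = χ A' := by
    intro α A' hA'
    have hex : ∃ A' : {A' : LO.Substructure C // Nonempty (A ≃[LO] A')},
      (A'.1 : Set C) = Set.range α := ⟨A', hA'⟩
    have h1 : χ' α = χ hex.choose := dif_pos hex
    rw [h1]
    apply congrArg χ
    apply Subtype.ext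
    apply SetLike.coe_injective
    rw [hex.choose_spec, hA']
  obtain ⟨β, hβ, c, hc⟩ := hC χ'
  have hβR : ∀ x y z : B, RC s (β x) (β y) (β z) ↔ RO x y z :=
    of_sorted hBht hCht β hβ.mono.injective (fun x y z h1 h2 => by
      rw [(RC_sorted (hβ.mono h1) (hβ.mono h2)).1]
      exact hβ.s x y z h1 h2)
  let e : B ↪[LO] C := mkEmbO β hβ.mono.injective (fun x y => hβ.mono.lt_iff_lt) hβR
  refine ⟨e.toHom.range, ⟨e.equivRange⟩, c, ?_⟩
  rintro ⟨A', ⟨i⟩⟩ hA'B
  -- the map `A → B`
  let j : A ↪[LO] B := (e.equivRange.symm.toEmbedding.comp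
    (Substructure.inclusion hA'B)).comp i.toEmbedding
  have hj : ∀ x : A, β (j x) = (i x : A').1 := by
    intro x
    have h1 : e.equivRange (j x) = Substructure.inclusion hA'B (i x) :=
      FirstOrder.Language.Equiv.apply_symm_apply _ _
    have h2 := congrArg Subtype.val h1
    rw [Embedding.equivRange_apply] at h2
    exact h2
  have hjE : Emb (RO : A → A → A → Prop) (RO : B → B → B → Prop) j :=
    ⟨fun x y h => (emb_ltO j x y).2 h, fun x y z _ _ => emb_RO j x y z⟩
  rw [← hc j hjE]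
  refine (hχ' (β ∘ j) ⟨A', ⟨i⟩⟩ ?_).symm
  ext x
  constructor
  · intro hx
    refine ⟨i.symm ⟨x, hx⟩, ?_⟩
    change β (j (i.symm ⟨x, hx⟩)) = x
    rw [hj, FirstOrder.Language.Equiv.apply_symm_apply]
  · rintro ⟨a, rfl⟩
    change β (j a) ∈ (A' : Set C)
    rw [hj]
    exact (i a).2

/-- The generic structure exists. -/
theorem exists_Generic : ∃ (lt : ℕ → ℕ → Prop) (R : ℕ → ℕ → ℕ → Prop), Generic lt R := by
  obtain ⟨lt, R, h1, h2⟩ := exists_generic
  exact ⟨lt, R, h1.ltAx, h1.ht, h2⟩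

theorem main : (∃ (M : Type) (_ : LR.Structure M) (_ : Countable M), IsFraisseLimit ClassW M) ∧
    ∀ (M : Type) [LR.Structure M] [Countable M], IsFraisseLimit ClassW M →
      HasFiniteRamseyExpansion LR M := by
  obtain ⟨lt, R, hG⟩ := exists_Generic
  refine ⟨⟨ℕ, structureOfRel R, inferInstance, limit_R hG⟩, ?_⟩
  intro M instM _ hM
  obtain ⟨e⟩ : Nonempty (@FirstOrder.Language.Equiv LR M ℕ instM (structureOfRel R)) := by
    let _ : LR.Structure ℕ := structureOfRel R
    exact hM.nonempty_equiv (limit_R hG)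
  let instN : LO.Structure ℕ := mkLO lt R
  let instO : LO.Structure M := mkLO (fun x y => lt (e x) (e y)) (fun x y z => R (e x) (e y) (e z))
  have heR : ∀ x y z : M, R (e x) (e y) (e z) ↔ RelR x y z := by
    intro x y z
    exact @emb_RelR M ℕ instM (structureOfRel R)
      (@FirstOrder.Language.Equiv.toEmbedding LR M ℕ instM (structureOfRel R) e) x y z
  let e' : M ≃[LO] ℕ :=
    { toEquiv := @FirstOrder.Language.Equiv.toEquiv LR M ℕ instM (structureOfRel R) e
      map_fun' := fun {n} g => Empty.elim g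
      map_rel' := fun {n} r => by
        intro v
        cases r
        · exact Iff.rfl
        · exact Iff.rfl }
  refine ⟨LO, incl, instO, inferInstance, inferInstance, incl_injective, ⟨?_, ?_⟩, ?_, ?_⟩
  · intro n f
    exact Empty.elim f
  · intro n r v
    cases r
    apply propext
    exact (heR (v 0) (v 1) (v 2)).trans (relMap_RR v).symm
  · exact ultra_of_equiv e' (ultra_O hG)
  · rw [Equiv.age_eq_age e']
    exact ramsey_age hG

end Pool.Agent.Lib_helper38.HT
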