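import Pool.Agent.Lib_helper38.H4.Ext

/-!
The generic structure is a Fraisse limit, in both languages.
-/

open FirstOrder FirstOrder.Language CategoryTheory

namespace Pool.Agent.Lib_helper38.HT

theorem mem_sup_closure {L : FirstOrder.Language.{0, 0}} [L.IsRelational] {M : Type}
    [L.Structure M] (S : L.Substructure M) (m : M) (x : M) :
    x ∈ Substructure.closure L {m} ⊔ S ↔ x = m ∨ x ∈ S := by
  have h : Substructure.closure L {m} ⊔ S = Substructure.closure L ({m} ∪ (S : Set M)) := by
    rw [Substructure.closure_union, Substructure.closure_eq]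
  rw [h, Substructure.mem_closure_iff_of_isRelational]
  rfl

section generic

variable {lt : ℕ → ℕ → Prop} {R : ℕ → ℕ → ℕ → Prop}

theorem ultra_O (hG : Generic lt R) :
    @FirstOrder.Language.IsUltrahomogeneous LO ℕ (mkLO lt R) := by
  classical
  letI := mkLO lt R
  rw [isUltrahomogeneous_iff_IsExtensionPair (Structure.cg_of_countable),
    isExtensionPair_iff_exists_embedding_closure_singleton_sup]
  intro S hS f m
  have hfin : Finite S := Substructure.fg_iff_finite.1 hS
  have hSf : (S : Set ℕ).Finite := Set.toFinite _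
  let f' : ℕ → ℕ := fun x => if h : x ∈ S then f ⟨x, h⟩ else 0
  have hf' : ∀ x (h : x ∈ S), f' x = f ⟨x, h⟩ := fun x h => dif_pos h
  have hPO : PO lt R lt R hSf.toFinset f' := by
    refine ⟨?_, ?_⟩
    · intro x hx y hy
      rw [Set.Finite.mem_toFinset, SetLike.mem_coe] at hx hy
      rw [hf' x hx, hf' y hy]
      exact emb_ltO f ⟨x, hx⟩ ⟨y, hy⟩
    · intro x hx y hy z hz
      rw [Set.Finite.mem_toFinset, SetLike.mem_coe] at hx hy hz
      rw [hf' x hx, hf' y hy, hf' z hz]
      exact emb_RO f ⟨x, hx⟩ ⟨y, hy⟩ ⟨z, hz⟩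
  obtain ⟨g, hg, hgf⟩ := hPO.ext hG hG.ltAx hG.ht m
  have hmem : ∀ x, x ∈ Substructure.closure LO {m} ⊔ S → x ∈ insert m hSf.toFinset := by
    intro x hx
    rw [mem_sup_closure] at hx
    rw [Finset.mem_insert, Set.Finite.mem_toFinset]
    exact hx
  refine ⟨mkEmbO (fun x => g x.1) ?_ ?_ ?_, ?_⟩
  · intro x y hxy
    exact Subtype.ext (hg.inj hG.ltAx hG.ltAx _ (hmem _ x.2) _ (hmem _ y.2) hxy)
  · intro x y
    exact hg.lt _ (hmem _ x.2) _ (hmem _ y.2)
  · intro x y z
    exact hg.R _ (hmem _ x.2) _ (hmem _ y.2) _ (hmem _ z.2)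
  · ext x
    have := hgf x.1 (by
      rw [Set.Finite.mem_toFinset]
      exact x.2)
    rw [hf' x.1 x.2] at this
    exact this.symm

theorem ultra_R (hG : Generic lt R) :
    @FirstOrder.Language.IsUltrahomogeneous LR ℕ (structureOfRel R) := by
  classical
  letI := structureOfRel R
  rw [isUltrahomogeneous_iff_IsExtensionPair (Structure.cg_of_countable),
    isExtensionPair_iff_exists_embedding_closure_singleton_sup]
  intro S hS f m
  have hfin : Finite S := Substructure.fg_iff_finite.1 hS
  have hSf : (S : Set ℕ).Finite := Set.toFinite _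
  let f' : ℕ → ℕ := fun x => if h : x ∈ S then f ⟨x, h⟩ else 0
  have hf' : ∀ x (h : x ∈ S), f' x = f ⟨x, h⟩ := fun x h => dif_pos h
  have hPO : PR R R hSf.toFinset f' := by
    refine ⟨?_, ?_⟩
    · intro x hx y hy hxy
      rw [Set.Finite.mem_toFinset, SetLike.mem_coe] at hx hy
      rw [hf' x hx, hf' y hy] at hxy
      exact congrArg Subtype.val (f.injective hxy)
    · intro x hx y hy z hz
      rw [Set.Finite.mem_toFinset, SetLike.mem_coe] at hx hy hz
      rw [hf' x hx, hf' y hy, hf' z hz]
      exact emb_RelR f ⟨x, hx⟩ ⟨y, hy⟩ ⟨z, hz⟩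
  obtain ⟨g, hg, hgf⟩ := hPO.ext hG hG.ht m
  have hmem : ∀ x, x ∈ Substructure.closure LR {m} ⊔ S → x ∈ insert m hSf.toFinset := by
    intro x hx
    rw [mem_sup_closure] at hx
    rw [Finset.mem_insert, Set.Finite.mem_toFinset]
    exact hx
  refine ⟨mkEmbR (fun x => g x.1) ?_ ?_, ?_⟩
  · intro x y hxy
    exact Subtype.ext (hg.inj _ (hmem _ x.2) _ (hmem _ y.2) hxy)
  · intro x y z
    exact hg.R _ (hmem _ x.2) _ (hmem _ y.2) _ (hmem _ z.2)
  · ext x
    have := hgf x.1 (by
      rw [Set.Finite.mem_toFinset]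
      exact x.2)
    rw [hf' x.1 x.2] at this
    exact this.symm

theorem age_O (hG : Generic lt R) (N : Bundled.{0} LO.Structure) :
    N ∈ @FirstOrder.Language.age LO ℕ (mkLO lt R) ↔
      Finite N ∧ LtAx (ltO : N → N → Prop) ∧ HTAx (RO : N → N → N → Prop) := by
  letI := mkLO lt R
  constructor
  · rintro ⟨h1, ⟨f⟩⟩
    refine ⟨Structure.fg_iff_finite.1 h1, ?_, ?_⟩
    · have hf : ∀ x y : N, lt (f x) (f y) ↔ ltO x y := fun x y => emb_ltO f x y
      refine ⟨?_, ?_, ?_⟩
      · intro x h
        exact hG.ltAx.irrefl _ ((hf x x).2 h)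
      · intro x y z h h'
        rw [← hf] at *
        exact hG.ltAx.trans _ _ _ h h'
      · intro x y hxy
        rw [← hf, ← hf]
        exact hG.ltAx.total _ _ (fun h => hxy (f.injective h))
    · have hf : ∀ x y z : N, R (f x) (f y) (f z) ↔ RO x y z := fun x y z => emb_RO f x y z
      refine ⟨?_, ?_, ?_, ?_, ?_⟩
      · intro x y z h
        rw [← hf] at h
        obtain ⟨h1, h2, h3⟩ := hG.ht.dist _ _ _ h
        exact ⟨fun k => h1 (congrArg f k), fun k => h2 (congrArg f k),
          fun k => h3 (congrArg f k)⟩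
      · intro x y z
        rw [← hf, ← hf]
        exact hG.ht.cyc _ _ _
      · intro x y z
        rw [← hf, ← hf]
        exact hG.ht.anti _ _ _
      · intro x y z h1 h2 h3
        rw [← hf, ← hf]
        exact hG.ht.conn _ _ _ (fun h => h1 (f.injective h)) (fun h => h2 (f.injective h))
          (fun h => h3 (f.injective h))
      · intro w x y z
        rw [← hf, ← hf, ← hf, ← hf]
        exact hG.ht.clo _ _ _ _
  · rintro ⟨h1, h2, h3⟩
    refine ⟨Structure.fg_iff_finite.2 h1, ?_⟩
    obtain ⟨f, hf⟩ := exists_PO hG h2 h3 (Set.finite_univ (α := N)).toFinset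
    have hm : ∀ x : N, x ∈ (Set.finite_univ (α := N)).toFinset := by simp
    exact ⟨mkEmbO f (fun x y h => hf.inj hG.ltAx h2 x (hm x) y (hm y) h)
      (fun x y => hf.lt x (hm x) y (hm y)) (fun x y z => hf.R x (hm x) y (hm y) z (hm z))⟩

/-- `H_4`-freeness in terms of the closure axiom. -/
theorem ht_iff (N : Type) [LR.Structure N] :
    HTAx (RelR : N → N → N → Prop) ↔ IsHypertournament N ∧ IsEmpty (H4 ↪[LR] N) := by
  constructor
  · intro h
    refine ⟨⟨h.dist, h.cyc, ?_⟩, ⟨fun e => ?_⟩⟩
    · intro x y z h1 h2 h3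
      constructor
      · exact h.anti x y z
      · intro hn
        exact (h.conn x y z h1 h2 h3).resolve_right hn
    · have he : ∀ i j k : Fin 4, RelR (e i) (e j) (e k) ↔ h4Rel i j k := by
        intro i j k
        exact emb_RelR e i j k
      have h1 : RelR (e (3 : Fin 4)) (e (0 : Fin 4)) (e (1 : Fin 4)) :=
        (he 3 0 1).2 (by simp [h4Rel, h4Triples])
      have h2 : RelR (e (3 : Fin 4)) (e (1 : Fin 4)) (e (2 : Fin 4)) :=
        (he 3 1 2).2 (by simp [h4Rel, h4Triples])
      have h3 : RelR (e (3 : Fin 4)) (e (2 : Fin 4)) (e (0 : Fin 4)) :=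
        (he 3 2 0).2 (by simp [h4Rel, h4Triples])
      have h4 : RelR (e (0 : Fin 4)) (e (2 : Fin 4)) (e (1 : Fin 4)) :=
        (he 0 2 1).2 (by simp [h4Rel, h4Triples])
      exact h.anti _ _ _ (h.clo _ _ _ _ h1 h2 h3) h4
  · rintro ⟨h, hE⟩
    have hanti : ∀ x y z : N, RelR x y z → ¬ RelR x z y := by
      intro x y z hxyz
      obtain ⟨h1, h2, h3⟩ := h.distinct x y z hxyz
      exact (h.exactly_one x y z h1 h2 h3).1 hxyz
    refine ⟨h.distinct, h.cyclic, hanti, ?_, ?_⟩
    · intro x y z h1 h2 h3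
      by_cases hx : RelR x y z
      · exact Or.inl hx
      · right
        by_contra hn
        exact hx ((h.exactly_one x y z h1 h2 h3).2 hn)
    · intro w x y z h1 h2 h3
      by_contra h4
      obtain ⟨hwx, hxy, hwy⟩ := h.distinct _ _ _ h1
      obtain ⟨-, hyz, hwz⟩ := h.distinct _ _ _ h2
      obtain ⟨-, hzx, -⟩ := h.distinct _ _ _ h3
      have h4' : RelR x z y := by
        by_contra hn
        exact h4 ((h.exactly_one x y z hxy hyz (Ne.symm hzx)).2 hn)
      -- all facts
      have a1 := h.cyclic _ _ _ h1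
      have a2 := h.cyclic _ _ _ a1
      have b1 := h.cyclic _ _ _ h2
      have b2 := h.cyclic _ _ _ b1
      have c1 := h.cyclic _ _ _ h3
      have c2 := h.cyclic _ _ _ c1
      have d1 := h.cyclic _ _ _ h4'
      have d2 := h.cyclic _ _ _ d1
      have na := hanti _ _ _ h1
      have na1 := hanti _ _ _ a1
      have na2 := hanti _ _ _ a2
      have nb := hanti _ _ _ h2
      have nb1 := hanti _ _ _ b1
      have nb2 := hanti _ _ _ b2
      have nc := hanti _ _ _ h3
      have nc1 := hanti _ _ _ c1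
      have nc2 := hanti _ _ _ c2
      have nd := hanti _ _ _ h4'
      have nd1 := hanti _ _ _ d1
      have nd2 := hanti _ _ _ d2
      have k1 : ∀ a b : N, ¬ RelR a a b := fun a b k => (h.distinct _ _ _ k).1 rfl
      have k2 : ∀ a b : N, ¬ RelR a b b := fun a b k => (h.distinct _ _ _ k).2.1 rfl
      have k3 : ∀ a b : N, ¬ RelR a b a := fun a b k => (h.distinct _ _ _ k).2.2 rfl
      let v : Fin 4 → N := ![x, y, z, w]
      have hv : Function.Injective v := by
        intro i j hij
        fin_cases i <;> fin_cases j <;> simp [v] at hij ⊢ <;>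
          first
          | exact absurd hij (by assumption)
          | exact absurd hij.symm (by assumption)
      refine hE.false (mkEmbR (M := H4) (N := N) v hv ?_)
      have key : ∀ i j k : Fin 4, RelR (v i) (v j) (v k) ↔ h4Rel i j k := by
        intro i j k
        fin_cases i <;> fin_cases j <;> fin_cases k <;>
          simp [v, h4Rel, h4Triples, k1, k2, k3, h1, h2, h3, h4', a1, a2, b1, b2, c1, c2, d1, d2,
            na, na1, na2, nb, nb1, nb2, nc, nc1, nc2, nd, nd1, nd2]
      intro i j k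
      exact key i j k

theorem age_R (hG : Generic lt R) :
    @FirstOrder.Language.age LR ℕ (structureOfRel R) = ClassW := by
  letI := structureOfRel R
  ext N
  have hN : N ∈ ClassW ↔ Finite N ∧ HTAx (RelR : N → N → N → Prop) := by
    rw [ht_iff]
    rfl
  rw [hN]
  constructor
  · rintro ⟨h1, ⟨f⟩⟩
    refine ⟨Structure.fg_iff_finite.1 h1, ?_⟩
    have hf : ∀ x y z : N, R (f x) (f y) (f z) ↔ RelR x y z := fun x y z => emb_RelR f x y z
    refine ⟨?_, ?_, ?_, ?_, ?_⟩
    · intro x y z h
      rw [← hf] at h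
      obtain ⟨h1, h2, h3⟩ := hG.ht.dist _ _ _ h
      exact ⟨fun k => h1 (congrArg f k), fun k => h2 (congrArg f k),
        fun k => h3 (congrArg f k)⟩
    · intro x y z
      rw [← hf, ← hf]
      exact hG.ht.cyc _ _ _
    · intro x y z
      rw [← hf, ← hf]
      exact hG.ht.anti _ _ _
    · intro x y z h1 h2 h3
      rw [← hf, ← hf]
      exact hG.ht.conn _ _ _ (fun h => h1 (f.injective h)) (fun h => h2 (f.injective h))
        (fun h => h3 (f.injective h))
    · intro w x y z
      rw [← hf, ← hf, ← hf, ← hf]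
      exact hG.ht.clo _ _ _ _
  · rintro ⟨h1, h3⟩
    refine ⟨Structure.fg_iff_finite.2 h1, ?_⟩
    obtain ⟨f, hf⟩ := exists_PR hG h3 (Set.finite_univ (α := N)).toFinset
    have hm : ∀ x : N, x ∈ (Set.finite_univ (α := N)).toFinset := by simp
    exact ⟨mkEmbR f (fun x y h => hf.inj x (hm x) y (hm y) h)
      (fun x y z => hf.R x (hm x) y (hm y) z (hm z))⟩

theorem limit_R (hG : Generic lt R) :
    @FirstOrder.Language.IsFraisseLimit LR ClassW ℕ (structureOfRel R) _ _ := by
  letI := structureOfRel R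
  exact ⟨ultra_R hG, age_R hG⟩

end generic

/-- Ultrahomogeneity is invariant under isomorphism. -/
theorem ultra_of_equiv {L : FirstOrder.Language.{0, 0}} {M N : Type} [L.Structure M]
    [L.Structure N] (e : M ≃[L] N) (h : L.IsUltrahomogeneous N) : L.IsUltrahomogeneous M := by
  intro S hS f
  let i : S ↪[L] N := e.toEmbedding.comp S.subtype
  have hSfg : Structure.FG L S := (Substructure.fg_iff_structure_fg S).1 hS
  obtain ⟨g, hg⟩ := h i.toHom.range (hSfg.range i.toHom)
    ((e.toEmbedding.comp f).comp i.equivRange.symm.toEmbedding)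
  refine ⟨e.symm.comp (g.comp e), ?_⟩
  ext x
  have h1 := congrArg (fun k : i.toHom.range ↪[L] N => k (i.equivRange x)) hg
  have h3 : e (f (i.equivRange.symm (i.equivRange x))) = g (i x) := h1
  rw [FirstOrder.Language.Equiv.symm_apply_apply] at h3
  change f x = e.symm (g (i x))
  rw [← h3, FirstOrder.Language.Equiv.symm_apply_apply]

end Pool.Agent.Lib_helper38.HT
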