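import Mathlib

/-!
Finite Ramsey theorem for increasing tuples of natural numbers.
-/

namespace Pool.Agent.Lib_helper38.HT

/-- Finite Ramsey theorem: colouring increasing `n`-tuples. -/
theorem ramsey_aux {κ : Type} [Finite κ] [Nonempty κ] (n : ℕ) : ∀ m : ℕ, ∃ r : ℕ,
    ∀ (χ : (Fin n → ℕ) → κ) (S : Finset ℕ), r ≤ S.card →
      ∃ T ⊆ S, T.card = m ∧ ∃ c, ∀ a : Fin n → ℕ, StrictMono a → (∀ i, a i ∈ T) → χ a = c := by
  induction n with
  | zero =>
    intro m
    refine ⟨m, fun χ S hS => ?_⟩
    obtain ⟨T, hT, hm⟩ := Finset.exists_subset_card_eq hS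
    exact ⟨T, hT, hm, χ Fin.elim0, fun a _ _ => congrArg χ (Subsingleton.elim _ _)⟩
  | succ n ih =>
    -- end-homogeneous sets
    have key : ∀ t : ℕ, ∃ r : ℕ, ∀ (χ : (Fin (n + 1) → ℕ) → κ) (S : Finset ℕ), r ≤ S.card →
        ∃ T ⊆ S, T.card = t ∧ ∃ c : ℕ → κ, ∀ a : Fin (n + 1) → ℕ, StrictMono a →
          (∀ i, a i ∈ T) → χ a = c (a 0) := by
      intro t
      induction t with
      | zero =>
        refine ⟨0, fun χ S _ => ⟨∅, by simp, rfl, fun _ => Classical.arbitrary κ, ?_⟩⟩
        intro a _ h
        exact absurd (h 0) (by simp)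
      | succ t iht =>
        obtain ⟨rt, hrt⟩ := iht
        obtain ⟨rn, hrn⟩ := ih rt
        refine ⟨rn + 1, fun χ S hS => ?_⟩
        have hne : S.Nonempty := by
          rw [← Finset.card_pos]; omega
        set x := S.min' hne with hx
        have hxS : x ∈ S := S.min'_mem hne
        have hcard : rn ≤ (S.erase x).card := by
          rw [Finset.card_erase_of_mem hxS]; omega
        obtain ⟨T', hT', hcT', cx, hcx⟩ := hrn (fun a => χ (Fin.cons x a)) (S.erase x) hcard
        obtain ⟨T'', hT'', hcT'', c, hc⟩ := hrt χ T' (le_of_eq hcT'.symm)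
        have hxlt : ∀ y ∈ T', x < y := by
          intro y hy
          have := hT' hy
          rw [Finset.mem_erase] at this
          exact lt_of_le_of_ne (S.min'_le y this.2) (Ne.symm this.1)
        have hxT'' : x ∉ T'' := fun h => lt_irrefl _ (hxlt x (hT'' h))
        refine ⟨insert x T'', ?_, ?_, fun y => if y = x then cx else c y, ?_⟩
        · intro y hy
          rcases Finset.mem_insert.1 hy with rfl | hy
          · exact hxS
          · exact Finset.mem_of_mem_erase (hT' (hT'' hy))
        · rw [Finset.card_insert_of_notMem hxT'', hcT'']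
        · intro a ha hmem
          by_cases h0 : a 0 = x
          · have hrest : ∀ i : Fin n, a i.succ ∈ T'' := by
              intro i
              rcases Finset.mem_insert.1 (hmem i.succ) with h | h
              · exfalso
                have : a 0 < a i.succ := ha (Fin.succ_pos i)
                omega
              · exact h
            have h1 := hcx (Fin.tail a) (fun i j hij => ha (Fin.succ_lt_succ_iff.2 hij))
              (fun i => hT'' (hrest i))
            have h2 : (Fin.cons x (Fin.tail a) : Fin (n + 1) → ℕ) = a := by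
              rw [← h0]; exact Fin.cons_self_tail a
            simp only [h2] at h1
            simp only [h0, if_true]
            exact h1
          · have h0T : a 0 ∈ T'' := by
              rcases Finset.mem_insert.1 (hmem 0) with h | h
              · exact absurd h h0
              · exact h
            have hall : ∀ i, a i ∈ T'' := by
              intro i
              rcases Finset.mem_insert.1 (hmem i) with h | h
              · exfalso
                have h1 : a 0 ≤ a i := ha.monotone (Fin.zero_le i)
                have h2 := hxlt _ (hT'' h0T)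
                omega
              · exact h
            simp only [if_neg h0]
            exact hc a ha hall
    intro m
    classical
    haveI := Fintype.ofFinite κ
    obtain ⟨r, hr⟩ := key (Fintype.card κ * m)
    refine ⟨r, fun χ S hS => ?_⟩
    obtain ⟨T, hT, hcT, c, hc⟩ := hr χ S hS
    obtain ⟨k, -, hk⟩ := Finset.exists_le_card_fiber_of_mul_le_card_of_maps_to
      (s := T) (t := (Finset.univ : Finset κ)) (f := c) (n := m) (fun _ _ => Finset.mem_univ _)
      Finset.univ_nonempty (by rw [hcT, Finset.card_univ])
    obtain ⟨T', hT', hcT'⟩ := Finset.exists_subset_card_eq hk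
    refine ⟨T', fun y hy => hT (Finset.mem_filter.1 (hT' hy)).1, hcT', k, ?_⟩
    intro a ha hmem
    rw [hc a ha (fun i => (Finset.mem_filter.1 (hT' (hmem i))).1)]
    exact (Finset.mem_filter.1 (hT' (hmem 0))).2

/-- Finite Ramsey theorem for order embeddings of finite linear orders. -/
theorem ramsey {κ : Type} [Finite κ] [Nonempty κ] (A B : Type) [LinearOrder A] [Finite A]
    [LinearOrder B] [Finite B] : ∃ r : ℕ, ∀ χ : (A → Fin r) → κ,
      ∃ β : B → Fin r, StrictMono β ∧ ∃ c, ∀ γ : A → B, StrictMono γ → χ (β ∘ γ) = c := by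
  classical
  haveI := Fintype.ofFinite A
  haveI := Fintype.ofFinite B
  obtain ⟨r, hr⟩ := ramsey_aux (κ := κ) (Fintype.card A) (Fintype.card B)
  refine ⟨r + 1, fun χ => ?_⟩
  let eA : Fin (Fintype.card A) ≃o A := Fintype.orderIsoFinOfCardEq A rfl
  let eB : Fin (Fintype.card B) ≃o B := Fintype.orderIsoFinOfCardEq B rfl
  obtain ⟨T, hT, hcT, c, hc⟩ := hr (fun a => χ (fun x => Fin.ofNat (r + 1) (a (eA.symm x))))
    (Finset.range (r + 1)) (by simp)
  let f := T.orderEmbOfFin hcT
  have hfT : ∀ i, f i ∈ T := fun i => Finset.orderEmbOfFin_mem _ _ _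
  have hlt : ∀ i, f i < r + 1 := fun i => Finset.mem_range.1 (hT (hfT i))
  refine ⟨fun b => ⟨f (eB.symm b), hlt _⟩, ?_, c, ?_⟩
  · intro x y hxy
    exact Fin.mk_lt_mk.2 (f.strictMono (eB.symm.strictMono hxy))
  · intro γ hγ
    have := hc (fun i => f (eB.symm (γ (eA i))))
      (fun i j hij => f.strictMono (eB.symm.strictMono (hγ (eA.strictMono hij))))
      (fun i => hfT _)
    rw [← this]
    apply congrArg χ
    funext x
    apply Fin.ext
    simp only [Function.comp_apply, OrderIso.apply_symm_apply]
    exact (Nat.mod_eq_of_lt (hlt _)).symm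

end Pool.Agent.Lib_helper38.HT
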